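import Pool.Agent.Lib.MP_7d358c_an.Basic

/-!
# Lower bound for the Dirichlet quotient on disjoint unions of balls of equal radius
-/

open MeasureTheory Filter Topology
open scoped ContDiff

namespace Pool.Agent.Lib.MP_7d358c_an

lemma hasFDerivAt_coord {N : ℕ} (i : Fin N) (z : En N) :
    HasFDerivAt (fun y : En N => y i) (EuclideanSpace.proj i : En N →L[ℝ] ℝ) z :=
  (EuclideanSpace.proj i : En N →L[ℝ] ℝ).hasFDerivAt

lemma hasFDerivAt_dist_sq {N : ℕ} (x z : En N) :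
    HasFDerivAt (fun y : En N => ‖y - x‖ ^ 2) (2 • innerSL ℝ (z - x)) z := by
  have h := (hasStrictFDerivAt_norm_sq (z - x)).hasFDerivAt
  have h2 : HasFDerivAt (fun y : En N => y - x) (ContinuousLinearMap.id ℝ (En N)) z :=
    (hasFDerivAt_id z).sub_const x
  have h3 := h.comp z h2
  rw [ContinuousLinearMap.comp_id] at h3
  exact h3

lemma ball_lower {N : ℕ} {Ω : Set (En N)} (hΩ : IsOpen Ω) {r : ℝ} (hr : 0 < r)
    (ctr : En N → En N) (hloc : ∀ z ∈ Ω, ∀ᶠ y in 𝓝 z, ctr y = ctr z)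
    (hball : ∀ z ∈ Ω, ‖z - ctr z‖ < r) (μ : ℝ) (g g' g'' : ℝ → ℝ)
    (hg : ∀ t, HasDerivAt g (g' t) t) (hg' : ∀ t, HasDerivAt g' (g'' t) t)
    (hgc : ContDiff ℝ 1 g) (hgc' : ContDiff ℝ 1 g')
    (hpos : ∀ t, 0 ≤ t → t < 1 → 0 < g t)
    (hineq : ∀ t, 0 ≤ t → t < 1 → 2 * N * g' t + 4 * t * g'' t + μ * g t ≤ 0)
    {u : En N → ℝ} (hu : IsTest Ω u) :
    μ / r ^ 2 * ∫ x, u x ^ 2 ≤ ∫ x, ‖fderiv ℝ u x‖ ^ 2 := by
  have hr2 : 0 < r ^ 2 := by positivity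
  -- local model
  set Φ : En N → Fin N → En N → ℝ := fun x i y =>
    2 / r ^ 2 * ((g' (‖y - x‖ ^ 2 / r ^ 2) / g (‖y - x‖ ^ 2 / r ^ 2)) * (y i - x i)) with hΦ
  set Ψ : Fin N → En N → ℝ := fun i y => Φ (ctr y) i y with hΨ
  have hev : ∀ z ∈ Ω, ∀ i, Ψ i =ᶠ[𝓝 z] Φ (ctr z) i := by
    intro z hz i
    filter_upwards [hloc z hz] with y hy
    simp only [hΨ, hy]
  have ht : ∀ z ∈ Ω, 0 ≤ ‖z - ctr z‖ ^ 2 / r ^ 2 ∧ ‖z - ctr z‖ ^ 2 / r ^ 2 < 1 := by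
    intro z hz
    refine ⟨by positivity, ?_⟩
    rw [div_lt_one hr2]
    exact pow_lt_pow_left₀ (hball z hz) (norm_nonneg _) two_ne_zero
  have hcd : ∀ z ∈ Ω, ∀ i, ContDiffAt ℝ 1 (Φ (ctr z) i) z := by
    intro z hz i
    have hgne : g (‖z - ctr z‖ ^ 2 / r ^ 2) ≠ 0 := (hpos _ (ht z hz).1 (ht z hz).2).ne'
    have h0 : ContDiff ℝ 1 fun y : En N => ‖y - ctr z‖ ^ 2 / r ^ 2 :=
      ((contDiff_id.sub contDiff_const).norm_sq ℝ).div_const _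
    have h1 : ContDiffAt ℝ 1 (fun y : En N => g' (‖y - ctr z‖ ^ 2 / r ^ 2)) z :=
      (hgc'.comp h0).contDiffAt
    have h2 : ContDiffAt ℝ 1 (fun y : En N => g (‖y - ctr z‖ ^ 2 / r ^ 2)) z :=
      (hgc.comp h0).contDiffAt
    have h3 : ContDiffAt ℝ 1 (fun y : En N => y i - ctr z i) z :=
      ((EuclideanSpace.proj i : En N →L[ℝ] ℝ).contDiff.sub contDiff_const).contDiffAt
    exact contDiffAt_const.mul ((h1.div h2 hgne).mul h3)
  have hder : ∀ z ∈ Ω, ∀ i, fderiv ℝ (Ψ i) z (ee i) =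
      2 / r ^ 2 * (g' (‖z - ctr z‖ ^ 2 / r ^ 2) / g (‖z - ctr z‖ ^ 2 / r ^ 2)
        + (g'' (‖z - ctr z‖ ^ 2 / r ^ 2) * g (‖z - ctr z‖ ^ 2 / r ^ 2)
          - g' (‖z - ctr z‖ ^ 2 / r ^ 2) ^ 2) / g (‖z - ctr z‖ ^ 2 / r ^ 2) ^ 2
          * (2 / r ^ 2 * (z i - ctr z i) ^ 2)) := by
    intro z hz i
    rw [(hev z hz i).fderiv_eq]
    have hgne : g (‖z - ctr z‖ ^ 2 / r ^ 2) ≠ 0 := (hpos _ (ht z hz).1 (ht z hz).2).ne'
    have h0 : HasFDerivAt (fun y : En N => ‖y - ctr z‖ ^ 2 / r ^ 2)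
        ((r ^ 2)⁻¹ • (2 • innerSL ℝ (z - ctr z))) z := by
      have := (hasFDerivAt_dist_sq (ctr z) z).mul_const ((r ^ 2)⁻¹)
      simpa [div_eq_mul_inv] using this
    have hq : HasDerivAt (fun t => g' t / g t)
        ((g'' (‖z - ctr z‖ ^ 2 / r ^ 2) * g (‖z - ctr z‖ ^ 2 / r ^ 2)
          - g' (‖z - ctr z‖ ^ 2 / r ^ 2) * g' (‖z - ctr z‖ ^ 2 / r ^ 2))
            / g (‖z - ctr z‖ ^ 2 / r ^ 2) ^ 2) (‖z - ctr z‖ ^ 2 / r ^ 2) :=
      (hg' _).div (hg _) hgne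
    have h1 := hq.comp_hasFDerivAt z h0
    have h2 : HasFDerivAt (fun y : En N => y i - ctr z i) (EuclideanSpace.proj i : En N →L[ℝ] ℝ) z :=
      (hasFDerivAt_coord i z).sub_const _
    have h3 := (h1.mul h2).const_mul (2 / r ^ 2)
    have h4 : fderiv ℝ (Φ (ctr z) i) z = _ := h3.fderiv
    rw [h4]
    have h5 : inner ℝ (z - ctr z) (ee i : En N) = z i - ctr z i := by
      rw [ee, EuclideanSpace.inner_single_right]; simp
    have h6 : (EuclideanSpace.proj i : En N →L[ℝ] ℝ) (ee i) = 1 := by simp [ee]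
    simp only [smul_apply, add_apply, smul_eq_mul, innerSL_apply_apply, h5, h6, Function.comp_apply,
      nsmul_eq_mul]
    ring
  refine barta hΩ hu Ψ (fun i z hz => ((hcd z hz i).congr_of_eventuallyEq (hev z hz i)).contDiffWithinAt)
    (μ / r ^ 2) ?_
  intro z hz
  obtain ⟨ht0, ht1⟩ := ht z hz
  rw [Finset.sum_congr rfl fun i _ => hder z hz i]
  set t := ‖z - ctr z‖ ^ 2 / r ^ 2 with htdef
  have hgp := hpos t ht0 ht1
  have hin := hineq t ht0 ht1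
  have hsum : ∑ i, (z i - ctr z i) ^ 2 = r ^ 2 * t := by
    have : ‖z - ctr z‖ ^ 2 = ∑ i, (z i - ctr z i) ^ 2 := by
      rw [EuclideanSpace.norm_sq_eq]; simp
    rw [htdef, this]; field_simp
  have e1 : ∑ i : Fin N, 2 / r ^ 2 * (g' t / g t + (g'' t * g t - g' t ^ 2) / g t ^ 2
      * (2 / r ^ 2 * (z i - ctr z i) ^ 2))
      = 2 / r ^ 2 * (N * (g' t / g t) + (g'' t * g t - g' t ^ 2) / g t ^ 2
        * (2 / r ^ 2 * (r ^ 2 * t))) := by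
    rw [← hsum, ← Finset.mul_sum, Finset.sum_add_distrib, ← Finset.mul_sum, ← Finset.mul_sum]
    simp
  have e2 : ∑ i, Ψ i z ^ 2 = 4 / r ^ 4 * (g' t / g t) ^ 2 * (r ^ 2 * t) := by
    rw [← hsum, Finset.mul_sum]
    refine Finset.sum_congr rfl fun i _ => ?_
    simp only [hΨ, hΦ, ← htdef]
    ring
  rw [e1, e2]
  have e3 : 2 / r ^ 2 * (N * (g' t / g t) + (g'' t * g t - g' t ^ 2) / g t ^ 2
        * (2 / r ^ 2 * (r ^ 2 * t))) + 4 / r ^ 4 * (g' t / g t) ^ 2 * (r ^ 2 * t)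
      = (2 * N * g' t + 4 * t * g'' t + μ * g t) / (r ^ 2 * g t) - μ / r ^ 2 := by
    have := hgp.ne'
    have := hr2.ne'
    have := hr.ne'
    field_simp
    ring
  rw [e3]
  have : (2 * N * g' t + 4 * t * g'' t + μ * g t) / (r ^ 2 * g t) ≤ 0 :=
    div_nonpos_of_nonpos_of_nonneg hin (by positivity)
  linarith

end Pool.Agent.Lib.MP_7d358c_an
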