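import Pool.Agent.Lib.MP_7d358c_an.Main

/-!
# The third eigenvalue of three disjoint balls
-/

open MeasureTheory Filter Topology Metric
open scoped ContDiff

namespace Pool.Agent.Lib.MP_7d358c_an

/-- admissible numbers exist for a union of three disjoint balls -/
lemma admissible_nonempty {N : ℕ} (x : Fin 3 → En N) (r : Fin 3 → ℝ) (hr : ∀ i, 0 < r i)
    (hdis : ∀ i j, i ≠ j → Disjoint (ball (x i) (r i)) (ball (x j) (r j))) :
    ∃ L : ℝ, ∃ V : Submodule ℝ (EuclideanSpace ℝ (Fin N) → ℝ), Module.finrank ℝ V = 3 ∧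
    ∀ u ∈ V, IsTest (⋃ i, ball (x i) (r i)) u ∧ ∫ x, ‖fderiv ℝ u x‖ ^ 2 ≤ L * ∫ x, u x ^ 2 := by
  classical
  let f : ∀ i : Fin 3, ContDiffBump (x i) := fun i =>
    ⟨r i / 3, r i / 2, by have := hr i; positivity, by have := hr i; linarith⟩
  have hrout : ∀ i, (f i).rOut = r i / 2 := fun i => rfl
  have hzero : ∀ i y, y ∉ ball (x i) (r i) → f i y = 0 := by
    intro i y hy
    refine (f i).zero_of_le_dist ?_
    rw [mem_ball, not_lt] at hy
    rw [hrout]; have := hr i; linarith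
  have hmul : ∀ i j, i ≠ j → ∀ y, f i y * f j y = 0 := by
    intro i j hij y
    by_cases hy : y ∈ ball (x i) (r i)
    · have : y ∉ ball (x j) (r j) := Set.disjoint_left.mp (hdis i j hij) hy
      rw [hzero j y this, mul_zero]
    · rw [hzero i y hy, zero_mul]
  have hcd : ∀ i, ContDiff ℝ ∞ (f i) := fun i => (f i).contDiff
  have hcs : ∀ i, HasCompactSupport (f i) := fun i => (f i).hasCompactSupport
  have htest : ∀ i, IsTest (⋃ i, ball (x i) (r i)) (f i) := by
    intro i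
    refine ⟨hcd i, hcs i, ?_⟩
    rw [(f i).tsupport_eq]
    refine (closedBall_subset_ball ?_).trans (Set.subset_iUnion (fun i => ball (x i) (r i)) i)
    rw [hrout]; have := hr i; linarith
  have hone : ∀ i, f i (x i) = 1 := fun i =>
    (f i).one_of_mem_closedBall (mem_closedBall_self (f i).rIn_pos.le)
  have hint : ∀ i, Integrable (fun z => ‖fderiv ℝ (f i) z‖ ^ 2) ∧ Integrable (fun z => (f i) z ^ 2) :=
    fun i => isTest_integrable (htest i)
  have hm : ∀ i, 0 < ∫ z, (f i) z ^ 2 := by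
    intro i
    have hs2 : HasCompactSupport fun z => (f i) z ^ 2 := by
      have : HasCompactSupport fun z => (f i) z * (f i) z := (hcs i).mul_right
      simpa only [sq] using this
    exact ((hcd i).continuous.pow 2).integral_pos_of_hasCompactSupport_nonneg_nonzero hs2
      (fun z => sq_nonneg _) (x := x i) (by simp [hone i])
  set m : Fin 3 → ℝ := fun i => ∫ z, (f i) z ^ 2 with hmdef
  set K : Fin 3 → ℝ := fun i => ∫ z, ‖fderiv ℝ (f i) z‖ ^ 2 with hKdef
  have hK0 : ∀ i, 0 ≤ K i := fun i => integral_nonneg fun z => by positivity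
  let T : (Fin 3 → ℝ) →ₗ[ℝ] (En N → ℝ) :=
    { toFun := fun c z => c 0 * f 0 z + c 1 * f 1 z + c 2 * f 2 z
      map_add' := by intro c d; funext z; simp; ring
      map_smul' := by intro a c; funext z; simp; ring }
  have hT : ∀ c z, T c z = c 0 * f 0 z + c 1 * f 1 z + c 2 * f 2 z := fun c z => rfl
  refine ⟨∑ i, 3 * K i / m i, LinearMap.range T, ?_, ?_⟩
  · have hinj : Function.Injective T := by
      rw [← LinearMap.ker_eq_bot, LinearMap.ker_eq_bot']
      intro c hc
      have hz : ∀ z, c 0 * f 0 z + c 1 * f 1 z + c 2 * f 2 z = 0 := fun z => by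
        have := congrFun hc z
        rw [hT] at this
        simpa using this
      have hoff : ∀ i j, i ≠ j → f i (x j) = 0 := by
        intro i j hij
        have := hmul i j hij (x j)
        rw [hone j, mul_one] at this
        exact this
      funext i
      fin_cases i
      · have := hz (x 0)
        rw [hone, hoff 1 0 (by decide), hoff 2 0 (by decide)] at this
        simpa using this
      · have := hz (x 1)
        rw [hone, hoff 0 1 (by decide), hoff 2 1 (by decide)] at this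
        simpa using this
      · have := hz (x 2)
        rw [hone, hoff 0 2 (by decide), hoff 1 2 (by decide)] at this
        simpa using this
    rw [LinearMap.finrank_range_of_inj hinj]
    simp
  · rintro u ⟨c, rfl⟩
    have hTf : (T c : En N → ℝ) = fun z => c 0 * f 0 z + c 1 * f 1 z + c 2 * f 2 z := rfl
    have hsub : tsupport (T c : En N → ℝ) ⊆ ⋃ i, closedBall (x i) (r i / 2) := by
      have hcl : IsClosed (⋃ i, closedBall (x i) (r i / 2)) :=
        isClosed_iUnion_of_finite fun i => isClosed_closedBall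
      refine closure_minimal ?_ hcl
      intro z hz
      by_contra hcon
      apply hz
      have h0 : ∀ i, f i z = 0 := by
        intro i
        refine (f i).zero_of_le_dist ?_
        rw [Set.mem_iUnion, not_exists] at hcon
        have := hcon i
        rw [mem_closedBall, not_le] at this
        exact this.le
      rw [hT, h0 0, h0 1, h0 2]; simp
    refine ⟨⟨?_, ?_, ?_⟩, ?_⟩
    · rw [hTf]
      exact ((contDiff_const.mul (hcd 0)).add (contDiff_const.mul (hcd 1))).add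
        (contDiff_const.mul (hcd 2))
    · exact (isCompact_iUnion fun i => isCompact_closedBall (x i) (r i / 2)).of_isClosed_subset
        (isClosed_tsupport _) hsub
    · refine hsub.trans (Set.iUnion_mono fun i => closedBall_subset_ball ?_)
      have := hr i; linarith
    · -- energy
      have hd : ∀ z, fderiv ℝ (T c) z
          = c 0 • fderiv ℝ (f 0) z + c 1 • fderiv ℝ (f 1) z + c 2 • fderiv ℝ (f 2) z := by
        intro z
        have h := fun i => (((hcd i).differentiable (by simp)) z).hasFDerivAt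
        have := (((h 0).const_mul (c 0)).add ((h 1).const_mul (c 1))).add ((h 2).const_mul (c 2))
        exact this.fderiv
      have hb : ∀ z, ‖fderiv ℝ (T c) z‖ ^ 2 ≤ 3 * (c 0 ^ 2 * ‖fderiv ℝ (f 0) z‖ ^ 2
          + c 1 ^ 2 * ‖fderiv ℝ (f 1) z‖ ^ 2 + c 2 ^ 2 * ‖fderiv ℝ (f 2) z‖ ^ 2) := by
        intro z
        rw [hd]
        have h1 := norm_add₃_le (a := c 0 • fderiv ℝ (f 0) z) (b := c 1 • fderiv ℝ (f 1) z)
          (c := c 2 • fderiv ℝ (f 2) z)
        rw [norm_smul, norm_smul, norm_smul, Real.norm_eq_abs, Real.norm_eq_abs, Real.norm_eq_abs] at h1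
        have h2 := pow_le_pow_left₀ (norm_nonneg _) h1 2
        refine h2.trans ?_
        have e0 := sq_abs (c 0)
        have e1 := sq_abs (c 1)
        have e2 := sq_abs (c 2)
        rw [← e0, ← e1, ← e2]
        nlinarith [sq_nonneg (|c 0| * ‖fderiv ℝ (f 0) z‖ - |c 1| * ‖fderiv ℝ (f 1) z‖),
          sq_nonneg (|c 0| * ‖fderiv ℝ (f 0) z‖ - |c 2| * ‖fderiv ℝ (f 2) z‖),
          sq_nonneg (|c 1| * ‖fderiv ℝ (f 1) z‖ - |c 2| * ‖fderiv ℝ (f 2) z‖)]
      have hsq : ∀ z, (T c z) ^ 2 = c 0 ^ 2 * f 0 z ^ 2 + c 1 ^ 2 * f 1 z ^ 2 + c 2 ^ 2 * f 2 z ^ 2 := by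
        intro z
        have a01 := hmul 0 1 (by decide) z
        have a02 := hmul 0 2 (by decide) z
        have a12 := hmul 1 2 (by decide) z
        rw [hT]
        linear_combination (2 * c 0 * c 1) * a01 + (2 * c 0 * c 2) * a02 + (2 * c 1 * c 2) * a12
      have hI1 := fun i => (hint i).1
      have hI2 := fun i => (hint i).2
      have e1 : ∫ z, (T c z) ^ 2 = c 0 ^ 2 * m 0 + c 1 ^ 2 * m 1 + c 2 ^ 2 * m 2 := by
        simp only [hsq]
        have a1 : ∫ z, (c 0 ^ 2 * f 0 z ^ 2 + c 1 ^ 2 * f 1 z ^ 2 + c 2 ^ 2 * f 2 z ^ 2)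
            = (∫ z, (c 0 ^ 2 * f 0 z ^ 2 + c 1 ^ 2 * f 1 z ^ 2)) + ∫ z, c 2 ^ 2 * f 2 z ^ 2 :=
          integral_add (f := fun z => c 0 ^ 2 * f 0 z ^ 2 + c 1 ^ 2 * f 1 z ^ 2)
            (((hI2 0).const_mul _).add ((hI2 1).const_mul _)) ((hI2 2).const_mul _)
        have a2 : ∫ z, (c 0 ^ 2 * f 0 z ^ 2 + c 1 ^ 2 * f 1 z ^ 2)
            = (∫ z, c 0 ^ 2 * f 0 z ^ 2) + ∫ z, c 1 ^ 2 * f 1 z ^ 2 :=
          integral_add ((hI2 0).const_mul _) ((hI2 1).const_mul _)
        rw [a1, a2, integral_const_mul, integral_const_mul, integral_const_mul]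
      have e2 : ∫ z, ‖fderiv ℝ (T c) z‖ ^ 2 ≤ 3 * (c 0 ^ 2 * K 0 + c 1 ^ 2 * K 1 + c 2 ^ 2 * K 2) := by
        have hG : Integrable fun z => 3 * (c 0 ^ 2 * ‖fderiv ℝ (f 0) z‖ ^ 2
          + c 1 ^ 2 * ‖fderiv ℝ (f 1) z‖ ^ 2 + c 2 ^ 2 * ‖fderiv ℝ (f 2) z‖ ^ 2) :=
          ((((hI1 0).const_mul _).add ((hI1 1).const_mul _)).add ((hI1 2).const_mul _)).const_mul 3
        have a0 : ∫ z, ‖fderiv ℝ (T c) z‖ ^ 2 ≤ ∫ z, 3 * (c 0 ^ 2 * ‖fderiv ℝ (f 0) z‖ ^ 2
          + c 1 ^ 2 * ‖fderiv ℝ (f 1) z‖ ^ 2 + c 2 ^ 2 * ‖fderiv ℝ (f 2) z‖ ^ 2) :=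
          integral_mono_of_nonneg (Eventually.of_forall fun z => by positivity) hG
            (Eventually.of_forall hb)
        have a1 : ∫ z, (c 0 ^ 2 * ‖fderiv ℝ (f 0) z‖ ^ 2 + c 1 ^ 2 * ‖fderiv ℝ (f 1) z‖ ^ 2
              + c 2 ^ 2 * ‖fderiv ℝ (f 2) z‖ ^ 2)
            = (∫ z, (c 0 ^ 2 * ‖fderiv ℝ (f 0) z‖ ^ 2 + c 1 ^ 2 * ‖fderiv ℝ (f 1) z‖ ^ 2))
              + ∫ z, c 2 ^ 2 * ‖fderiv ℝ (f 2) z‖ ^ 2 :=
          integral_add (f := fun z => c 0 ^ 2 * ‖fderiv ℝ (f 0) z‖ ^ 2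
              + c 1 ^ 2 * ‖fderiv ℝ (f 1) z‖ ^ 2)
            (((hI1 0).const_mul _).add ((hI1 1).const_mul _)) ((hI1 2).const_mul _)
        have a2 : ∫ z, (c 0 ^ 2 * ‖fderiv ℝ (f 0) z‖ ^ 2 + c 1 ^ 2 * ‖fderiv ℝ (f 1) z‖ ^ 2)
            = (∫ z, c 0 ^ 2 * ‖fderiv ℝ (f 0) z‖ ^ 2) + ∫ z, c 1 ^ 2 * ‖fderiv ℝ (f 1) z‖ ^ 2 :=
          integral_add ((hI1 0).const_mul _) ((hI1 1).const_mul _)
        rw [integral_const_mul, a1, a2, integral_const_mul, integral_const_mul,
          integral_const_mul] at a0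
        exact a0
      rw [e1]
      refine e2.trans ?_
      have hterm : ∀ i, 0 ≤ 3 * K i / m i := fun i =>
        div_nonneg (mul_nonneg (by norm_num) (hK0 i)) (hm i).le
      have hle : ∀ i, 3 * K i ≤ (∑ j, 3 * K j / m j) * m i := by
        intro i
        have h1 : 3 * K i / m i ≤ ∑ j, 3 * K j / m j :=
          Finset.single_le_sum (f := fun j => 3 * K j / m j) (fun j _ => hterm j) (Finset.mem_univ i)
        rwa [div_le_iff₀ (hm i)] at h1
      have b0 := mul_le_mul_of_nonneg_left (hle 0) (sq_nonneg (c 0))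
      have b1 := mul_le_mul_of_nonneg_left (hle 1) (sq_nonneg (c 1))
      have b2 := mul_le_mul_of_nonneg_left (hle 2) (sq_nonneg (c 2))
      linarith

/-- lower bound for the third eigenvalue of three disjoint balls of equal radius -/
theorem le_lam_balls {N : ℕ} (x : Fin 3 → En N) (r : ℝ) (hr : 0 < r)
    (hdis : ∀ i j, i ≠ j → Disjoint (ball (x i) r) (ball (x j) r))
    (μ : ℝ) (g g' g'' : ℝ → ℝ)
    (hg : ∀ t, HasDerivAt g (g' t) t) (hg' : ∀ t, HasDerivAt g' (g'' t) t)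
    (hgc : ContDiff ℝ 1 g) (hgc' : ContDiff ℝ 1 g')
    (hpos : ∀ t, 0 ≤ t → t < 1 → 0 < g t)
    (hineq : ∀ t, 0 ≤ t → t < 1 → 2 * N * g' t + 4 * t * g'' t + μ * g t ≤ 0) :
    μ / r ^ 2 ≤ lam 3 (⋃ i, ball (x i) r) := by
  classical
  refine le_csInf (admissible_nonempty x (fun _ => r) (fun _ => hr) hdis) fun L hL =>
    admissible_ge (by norm_num) (fun u hu => ?_) hL
  have hop : IsOpen (⋃ i, ball (x i) r) := isOpen_iUnion fun i => isOpen_ball
  let ctr : En N → En N := fun y => if h : ∃ i, y ∈ ball (x i) r then x h.choose else 0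
  have hctr : ∀ i, ∀ y ∈ ball (x i) r, ctr y = x i := by
    intro i y hy
    have h : ∃ i, y ∈ ball (x i) r := ⟨i, hy⟩
    have e : ctr y = x h.choose := dif_pos h
    have hc := h.choose_spec
    have : h.choose = i := by
      by_contra hne
      exact Set.disjoint_left.mp (hdis _ _ hne) hc hy
    rw [e, this]
  refine ball_lower hop hr ctr ?_ ?_ μ g g' g'' hg hg' hgc hgc' hpos hineq hu
  · intro z hz
    obtain ⟨i, hi⟩ := Set.mem_iUnion.mp hz
    filter_upwards [isOpen_ball.mem_nhds hi] with y hy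
    rw [hctr i y hy, hctr i z hi]
  · intro z hz
    obtain ⟨i, hi⟩ := Set.mem_iUnion.mp hz
    rw [hctr i z hi, ← dist_eq_norm]
    exact hi

end Pool.Agent.Lib.MP_7d358c_an
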