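import Mathlib

/-!
# Dirichlet eigenvalues by the min-max principle: test functions and integration by parts
-/

open MeasureTheory Filter Topology
open scoped ContDiff

namespace Pool.Agent.Lib.MP_7d358c_an

/-- `N`-dimensional Euclidean space. -/
abbrev En (N : ℕ) := EuclideanSpace ℝ (Fin N)

/-- `u` is a test function of `Ω`: smooth, with compact support contained in `Ω`. -/
def IsTest {N : ℕ} (Ω : Set (EuclideanSpace ℝ (Fin N))) (u : EuclideanSpace ℝ (Fin N) → ℝ) : Prop :=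
  ContDiff ℝ ∞ u ∧ HasCompactSupport u ∧ tsupport u ⊆ Ω

/-- The `k`-th Dirichlet eigenvalue of `Ω` by the min-max principle: the infimum of the `L` for
which there is a `k`-dimensional space of test functions with Dirichlet energy at most `L` times
the square of the `L²` norm. -/
noncomputable def lam {N : ℕ} (k : ℕ) (Ω : Set (EuclideanSpace ℝ (Fin N))) : ℝ :=
  sInf {L : ℝ | ∃ V : Submodule ℝ (EuclideanSpace ℝ (Fin N) → ℝ), Module.finrank ℝ V = k ∧
    ∀ u ∈ V, IsTest Ω u ∧ ∫ x, ‖fderiv ℝ u x‖ ^ 2 ≤ L * ∫ x, u x ^ 2}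

/-- the `i`-th unit vector -/
noncomputable def ee {N : ℕ} (i : Fin N) : En N := EuclideanSpace.single i 1

lemma ee_apply {N : ℕ} (i j : Fin N) : (ee i : En N) j = if j = i then 1 else 0 := by
  simp [ee]

lemma norm_sq_functional {N : ℕ} (L : En N →L[ℝ] ℝ) : ‖L‖ ^ 2 = ∑ i, (L (ee i)) ^ 2 := by
  set v := (InnerProductSpace.toDual ℝ (En N)).symm L with hv
  have h1 : ‖L‖ = ‖v‖ := by simp [hv]
  have h2 : ∀ i, L (ee i) = v i := by
    intro i
    have : L (ee i) = inner ℝ v (ee i) := by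
      rw [hv, InnerProductSpace.toDual_symm_apply]
    rw [this, ee, EuclideanSpace.inner_single_right]
    simp
  rw [h1, EuclideanSpace.norm_sq_eq]
  refine Finset.sum_congr rfl fun i _ => ?_
  rw [h2]; simp

lemma integral_fderiv_zero {N : ℕ} (G : En N → ℝ) (hG : ContDiff ℝ 1 G) (hc : HasCompactSupport G)
    (v : En N) : ∫ z, fderiv ℝ G z v = 0 := by
  have h1 : Continuous fun z => fderiv ℝ G z v := (hG.continuous_fderiv one_ne_zero).clm_apply continuous_const
  have h2 : HasCompactSupport fun z => fderiv ℝ G z v := by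
    have := hc.fderiv (𝕜 := ℝ)
    exact this.comp_left (g := fun L : En N →L[ℝ] ℝ => L v) (by simp)
  have := integral_mul_fderiv_eq_neg_fderiv_mul_of_integrable (μ := volume)
    (f := fun _ : En N => (1:ℝ)) (g := G) (v := v) (by simp)
    (by simpa using h1.integrable_of_hasCompactSupport h2)
    (by simpa using hG.continuous.integrable_of_hasCompactSupport hc)
    (by intro x _; exact differentiableAt_const _)
    (by intro x _; exact (hG.differentiable one_ne_zero) x)
  simpa using this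

/-- product of a compactly supported continuous function with a function continuous near its
support -/
lemma continuous_mul_of_tsupport {N : ℕ} {Ω : Set (En N)} (hΩ : IsOpen Ω) {f g : En N → ℝ}
    (hf : Continuous f) (hs : tsupport f ⊆ Ω) (hg : ContinuousOn g Ω) :
    Continuous fun z => f z * g z := by
  rw [continuous_iff_continuousAt]
  intro z
  by_cases hz : z ∈ Ω
  · exact hf.continuousAt.mul (hg.continuousAt (hΩ.mem_nhds hz))
  · have h1 : z ∉ tsupport f := fun h => hz (hs h)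
    have h2 : f =ᶠ[𝓝 z] 0 := notMem_tsupport_iff_eventuallyEq.mp h1
    have h3 : (fun z => f z * g z) =ᶠ[𝓝 z] fun _ => 0 := by
      filter_upwards [h2] with y hy
      simp [hy]
    exact (continuousAt_const.congr h3.symm)

lemma integrable_mul_of_tsupport {N : ℕ} {Ω : Set (En N)} (hΩ : IsOpen Ω) {f g : En N → ℝ}
    (hf : Continuous f) (hc : HasCompactSupport f) (hs : tsupport f ⊆ Ω) (hg : ContinuousOn g Ω) :
    Integrable fun z => f z * g z :=
  (continuous_mul_of_tsupport hΩ hf hs hg).integrable_of_hasCompactSupport hc.mul_right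

/-- **Barta's method**: a vector field `Ψ` on `Ω` with `div Ψ + |Ψ|² ≤ -μ` gives the lower bound
`μ` for the Dirichlet quotient. -/
lemma barta {N : ℕ} {Ω : Set (En N)} (hΩ : IsOpen Ω) {u : En N → ℝ} (hu : IsTest Ω u)
    (Ψ : Fin N → En N → ℝ) (hΨ : ∀ i, ContDiffOn ℝ 1 (Ψ i) Ω) (μ : ℝ)
    (h : ∀ z ∈ Ω, ∑ i, fderiv ℝ (Ψ i) z (ee i) + ∑ i, (Ψ i z) ^ 2 ≤ -μ) :
    μ * ∫ x, u x ^ 2 ≤ ∫ x, ‖fderiv ℝ u x‖ ^ 2 := by
  obtain ⟨hu1, hu2, hu3⟩ := hu
  have hu1' : ContDiff ℝ 1 u := hu1.of_le (by exact_mod_cast le_top)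
  have hud : Differentiable ℝ u := hu1'.differentiable one_ne_zero
  have hcu : Continuous u := hu1.continuous
  have hcd : Continuous (fderiv ℝ u) := hu1'.continuous_fderiv one_ne_zero
  have hcdi : ∀ i, Continuous fun z => fderiv ℝ u z (ee i) := fun i => hcd.clm_apply continuous_const
  -- the square
  have hsq : Continuous fun z => u z ^ 2 := hcu.pow 2
  have hsqc : HasCompactSupport fun z => u z ^ 2 := hu2.comp_left (g := fun t : ℝ => t ^ 2) (by simp)
  have hsqs : tsupport (fun z => u z ^ 2) ⊆ Ω := by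
    refine (closure_mono ?_).trans hu3
    intro z hz
    simp only [Function.mem_support, ne_eq] at hz ⊢
    intro h0; exact hz (by simp [h0])
  have hΨc : ∀ i, ContinuousOn (Ψ i) Ω := fun i => (hΨ i).continuousOn
  have hΨd : ∀ i, ContinuousOn (fun z => fderiv ℝ (Ψ i) z (ee i)) Ω := fun i =>
    ((hΨ i).continuousOn_fderiv_of_isOpen hΩ le_rfl).clm_apply continuousOn_const
  have hI1 : ∀ i, Integrable fun z => u z ^ 2 * fderiv ℝ (Ψ i) z (ee i) := fun i =>
    integrable_mul_of_tsupport hΩ hsq hsqc hsqs (hΨd i)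
  have hI2 : ∀ i, Integrable fun z => u z ^ 2 * (Ψ i z) ^ 2 := fun i =>
    integrable_mul_of_tsupport hΩ hsq hsqc hsqs ((hΨc i).pow 2)
  have hdsq : ∀ z, fderiv ℝ (fun z => u z ^ 2) z = (2 * u z) • fderiv ℝ u z := by
    intro z
    have := ((hud z).hasFDerivAt.pow 2).fderiv
    simpa using this
  have hI3 : ∀ i, Integrable fun z => (u z * fderiv ℝ u z (ee i)) * Ψ i z := by
    intro i
    refine integrable_mul_of_tsupport hΩ (hcu.mul (hcdi i)) hu2.mul_right ?_ (hΨc i)
    refine (closure_mono ?_).trans hu3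
    intro z hz
    simp only [Function.mem_support, ne_eq] at hz ⊢
    intro h0; exact hz (by simp [h0])
  have hI0 : ∀ i, Integrable fun z => u z ^ 2 * Ψ i z := fun i =>
    integrable_mul_of_tsupport hΩ hsq hsqc hsqs (hΨc i)
  have hibp : ∀ i, ∫ z, u z ^ 2 * fderiv ℝ (Ψ i) z (ee i)
      = - ∫ z, 2 * (u z * fderiv ℝ u z (ee i) * Ψ i z) := by
    intro i
    have := integral_mul_fderiv_eq_neg_fderiv_mul_of_integrable (μ := volume)
      (f := fun z => u z ^ 2) (g := Ψ i) (v := ee i)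
      (by
        have h := (hI3 i).const_mul 2
        refine h.congr (Eventually.of_forall fun z => ?_)
        simp only [hdsq]
        simp only [smul_apply, smul_eq_mul]
        ring)
      (hI1 i) (hI0 i)
      (by intro x _; exact (hud x).pow 2)
      (by
        intro x hx
        exact ((hΨ i).contDiffAt (hΩ.mem_nhds (hsqs hx))).differentiableAt one_ne_zero)
    rw [this]
    congr 1
    refine integral_congr_ae (Eventually.of_forall fun z => ?_)
    simp only [hdsq]
    simp only [smul_apply, smul_eq_mul]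
    ring
  have hIn : Integrable fun z => ‖fderiv ℝ u z‖ ^ 2 := by
    have hs : HasCompactSupport fun z => ‖fderiv ℝ u z‖ := (hu2.fderiv (𝕜 := ℝ)).norm
    have hs2 : HasCompactSupport fun z => ‖fderiv ℝ u z‖ * ‖fderiv ℝ u z‖ := hs.mul_right
    have hs3 : Continuous fun z => ‖fderiv ℝ u z‖ * ‖fderiv ℝ u z‖ := hcd.norm.mul hcd.norm
    refine (hs3.integrable_of_hasCompactSupport hs2).congr (Eventually.of_forall fun z => ?_)
    simp only [sq]
  have hIu : Integrable fun z => u z ^ 2 := hsq.integrable_of_hasCompactSupport hsqc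
  -- the main identity
  have key : 0 ≤ ∫ z, (‖fderiv ℝ u z‖ ^ 2 - μ * u z ^ 2
      - ∑ i, (2 * (u z * fderiv ℝ u z (ee i) * Ψ i z) + u z ^ 2 * fderiv ℝ (Ψ i) z (ee i))) := by
    refine integral_nonneg fun z => ?_
    simp only [Pi.zero_apply]
    by_cases hz : z ∈ Ω
    · have h1 := h z hz
      rw [norm_sq_functional]
      have h2 : 0 ≤ ∑ i, (fderiv ℝ u z (ee i) - u z * Ψ i z) ^ 2 :=
        Finset.sum_nonneg fun i _ => sq_nonneg _
      have h3 : ∑ i, (fderiv ℝ u z (ee i) - u z * Ψ i z) ^ 2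
          = ∑ i, (fderiv ℝ u z (ee i)) ^ 2 - ∑ i, 2 * (u z * fderiv ℝ u z (ee i) * Ψ i z)
            + u z ^ 2 * ∑ i, (Ψ i z) ^ 2 := by
        rw [Finset.mul_sum, ← Finset.sum_sub_distrib, ← Finset.sum_add_distrib]
        refine Finset.sum_congr rfl fun i _ => by ring
      have h4 : ∑ i, (2 * (u z * fderiv ℝ u z (ee i) * Ψ i z) + u z ^ 2 * fderiv ℝ (Ψ i) z (ee i))
          = ∑ i, 2 * (u z * fderiv ℝ u z (ee i) * Ψ i z)
            + u z ^ 2 * ∑ i, fderiv ℝ (Ψ i) z (ee i) := by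
        rw [Finset.mul_sum, ← Finset.sum_add_distrib]
      have h5 := mul_le_mul_of_nonneg_left h1 (sq_nonneg (u z))
      rw [h4]
      nlinarith [h2, h3, h5]
    · have h1 : z ∉ tsupport u := fun h => hz (hu3 h)
      have h2 : u =ᶠ[𝓝 z] 0 := notMem_tsupport_iff_eventuallyEq.mp h1
      have h3 : u z = 0 := h2.self_of_nhds
      simp [h3]
  have hIs : Integrable fun z => ∑ i, (2 * (u z * fderiv ℝ u z (ee i) * Ψ i z)
      + u z ^ 2 * fderiv ℝ (Ψ i) z (ee i)) :=
    integrable_finsetSum _ fun i _ => ((hI3 i).const_mul 2).add (hI1 i)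
  have e1 : ∫ z, (‖fderiv ℝ u z‖ ^ 2 - μ * u z ^ 2
      - ∑ i, (2 * (u z * fderiv ℝ u z (ee i) * Ψ i z) + u z ^ 2 * fderiv ℝ (Ψ i) z (ee i)))
      = (∫ z, (‖fderiv ℝ u z‖ ^ 2 - μ * u z ^ 2))
        - ∫ z, ∑ i, (2 * (u z * fderiv ℝ u z (ee i) * Ψ i z) + u z ^ 2 * fderiv ℝ (Ψ i) z (ee i)) :=
    integral_sub (f := fun z => ‖fderiv ℝ u z‖ ^ 2 - μ * u z ^ 2) (hIn.sub (hIu.const_mul μ)) hIs
  have e2 : ∫ z, (‖fderiv ℝ u z‖ ^ 2 - μ * u z ^ 2)
      = (∫ z, ‖fderiv ℝ u z‖ ^ 2) - ∫ z, μ * u z ^ 2 := integral_sub hIn (hIu.const_mul μ)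
  have hint : ∀ i, Integrable fun z => 2 * (u z * fderiv ℝ u z (ee i) * Ψ i z)
      + u z ^ 2 * fderiv ℝ (Ψ i) z (ee i) := fun i => ((hI3 i).const_mul 2).add (hI1 i)
  have hz : ∀ i, ∫ z, (2 * (u z * fderiv ℝ u z (ee i) * Ψ i z)
      + u z ^ 2 * fderiv ℝ (Ψ i) z (ee i)) = 0 := by
    intro i
    rw [integral_add ((hI3 i).const_mul 2) (hI1 i), hibp i]
    ring
  have e3 : ∫ z, ∑ i, (2 * (u z * fderiv ℝ u z (ee i) * Ψ i z)
      + u z ^ 2 * fderiv ℝ (Ψ i) z (ee i)) = 0 := by
    rw [integral_finsetSum _ fun i _ => hint i]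
    exact Finset.sum_eq_zero fun i _ => hz i
  rw [e1, e2, integral_const_mul, e3] at key
  linarith

end Pool.Agent.Lib.MP_7d358c_an
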