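import Pool.Agent.Lib.MP_7d358c_an.Ellipsoid

/-!
# Certificates in dimensions 4, 5 and 6
-/

open MeasureTheory Filter Topology Metric
open scoped ContDiff

namespace Pool.Agent.Lib.MP_7d358c_an

/-- certificate data in dimension 4 -/
noncomputable def h4 : F2 := (F2.mon 16 0 0).add ((F2.mon (-8) 0 1).add ((F2.mon (-7) 1 0)))
noncomputable def PA4 : F2 := (F2.mon (68794 / 525) 0 0).add ((F2.mon (2768 / 525) 0 1).add ((F2.mon (-4124 / 35) 0 2).add ((F2.mon (-72) 0 3))))
noncomputable def PB4 : F2 := (F2.mon (98599 / 1575) 0 0).add ((F2.mon (-3181 / 21) 0 1).add ((F2.mon (45832 / 525) 0 2).add ((F2.mon (4 / 3) 0 3).add ((F2.mon (-149393 / 150) 1 0).add ((F2.mon (108242 / 75) 1 1).add ((F2.mon (-64618 / 105) 1 2).add ((F2.mon (2816 / 35) 1 3).add ((F2.mon (138491 / 150) 2 0).add ((F2.mon (-5303 / 6) 2 1).add ((F2.mon (6336 / 35) 2 2).add ((F2.mon (-17969 / 60) 3 0).add ((F2.mon 132 3 1).add ((F2.mon (154 / 5) 4 0))))))))))))))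
noncomputable def QA4 : F2 := (F2.mon 1 0 0)
noncomputable def QB4 : F2 := (F2.mon (-14 / 3) 0 0).add ((F2.mon (11 / 5) 0 1).add ((F2.mon (11 / 10) 1 0)))

theorem dim4 : ∃ E : Set (En 4), IsOpen E ∧ Convex ℝ E ∧ volume E = 1 ∧
    ∀ Ω : Set (En 4), IsThreeBalls Ω → lam 3 E < lam 3 Ω := by
  refine comparison 2 2 (88 / 5) (72 / 5) (by norm_num) (by norm_num) (by norm_num)
    h4 PA4 PB4 QA4 QB4 (152 / 315) (14 / 15) (by norm_num) (by norm_num) ?_ ?_
    1 (by norm_num) (by norm_num) ?_
    (fun t => 1 + (-9 / 5) * t ^ 1 + (27 / 25) * t ^ 2 + (-81 / 250) * t ^ 3 + (729 / 12500) * t ^ 4 + (-2187 / 312500) * t ^ 5)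
    (fun t => (-9 / 5) + (54 / 25) * t ^ 1 + (-243 / 250) * t ^ 2 + (729 / 3125) * t ^ 3 + (-2187 / 62500) * t ^ 4)
    (fun t => (54 / 25) + (-243 / 125) * t ^ 1 + (2187 / 3125) * t ^ 2 + (-2187 / 15625) * t ^ 3) ?_ ?_ (by fun_prop) (by fun_prop) ?_ ?_
  · intro x y
    simp only [QA4, QB4, F2.add, F2.mon]
    norm_num
    ring
  · intro x y
    simp only [h4, PA4, PB4, F2.add, F2.mon]
    norm_num
    ring
  · simp only [h4, F2.add, F2.mon]
    norm_num
  · intro t
    have e := ((((((hasDerivAt_const t (1 : ℝ)).add ((hasDerivAt_pow 1 t).const_mul ((-9 / 5) : ℝ))).add ((hasDerivAt_pow 2 t).const_mul ((27 / 25) : ℝ))).add ((hasDerivAt_pow 3 t).const_mul ((-81 / 250) : ℝ))).add ((hasDerivAt_pow 4 t).const_mul ((729 / 12500) : ℝ))).add ((hasDerivAt_pow 5 t).const_mul ((-2187 / 312500) : ℝ)))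
    refine e.congr_deriv ?_
    norm_num
    ring
  · intro t
    have e := (((((hasDerivAt_const t ((-9 / 5) : ℝ)).add ((hasDerivAt_pow 1 t).const_mul ((54 / 25) : ℝ))).add ((hasDerivAt_pow 2 t).const_mul ((-243 / 250) : ℝ))).add ((hasDerivAt_pow 3 t).const_mul ((729 / 3125) : ℝ))).add ((hasDerivAt_pow 4 t).const_mul ((-2187 / 62500) : ℝ)))
    refine e.congr_deriv ?_
    norm_num
    ring
  · intro t h0 h1
    have hx : 0 < 1 - t := by linarith
    have e : 1 + (-9 / 5) * t ^ 1 + (27 / 25) * t ^ 2 + (-81 / 250) * t ^ 3 + (729 / 12500) * t ^ 4 + (-2187 / 312500) * t ^ 5 = (572 / 78125) + (25857 / 62500) * (1 - t) ^ 1 + (12123 / 31250) * (1 - t) ^ 2 + (2511 / 15625) * (1 - t) ^ 3 + (729 / 31250) * (1 - t) ^ 4 + (2187 / 312500) * (1 - t) ^ 5 := by ring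
    show 0 < 1 + (-9 / 5) * t ^ 1 + (27 / 25) * t ^ 2 + (-81 / 250) * t ^ 3 + (729 / 12500) * t ^ 4 + (-2187 / 312500) * t ^ 5
    rw [e]
    positivity
  · intro t h0 h1
    have hp : 0 ≤ t ^ 5 := by positivity
    have e : 2 * (((2 : ℕ) : ℝ) + 2) * ((-9 / 5) + (54 / 25) * t ^ 1 + (-243 / 250) * t ^ 2 + (729 / 3125) * t ^ 3 + (-2187 / 62500) * t ^ 4) + 4 * t * ((54 / 25) + (-243 / 125) * t ^ 1 + (2187 / 3125) * t ^ 2 + (-2187 / 15625) * t ^ 3)
        + (72 / 5) * (1 + (-9 / 5) * t ^ 1 + (27 / 25) * t ^ 2 + (-81 / 250) * t ^ 3 + (729 / 12500) * t ^ 4 + (-2187 / 312500) * t ^ 5) = (-39366 / 390625) * t ^ 5 := by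
      push_cast
      ring
    show 2 * (((2 : ℕ) : ℝ) + 2) * ((-9 / 5) + (54 / 25) * t ^ 1 + (-243 / 250) * t ^ 2 + (729 / 3125) * t ^ 3 + (-2187 / 62500) * t ^ 4) + 4 * t * ((54 / 25) + (-243 / 125) * t ^ 1 + (2187 / 3125) * t ^ 2 + (-2187 / 15625) * t ^ 3)
        + (72 / 5) * (1 + (-9 / 5) * t ^ 1 + (27 / 25) * t ^ 2 + (-81 / 250) * t ^ 3 + (729 / 12500) * t ^ 4 + (-2187 / 312500) * t ^ 5) ≤ 0
    rw [e]
    exact mul_nonpos_of_nonpos_of_nonneg (by norm_num) hp

/-- certificate data in dimension 5 -/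
noncomputable def h5 : F2 := (F2.mon 7 0 0).add ((F2.mon (-4) 0 1).add ((F2.mon (-3) 1 0)))
noncomputable def PA5 : F2 := (F2.mon (11208161 / 514800) 0 0).add ((F2.mon (49121 / 10400) 0 1).add ((F2.mon (-110231 / 5200) 0 2).add ((F2.mon (-605 / 32) 0 3))))
noncomputable def PB5 : F2 := (F2.mon (19638061 / 1801800) 0 0).add ((F2.mon (-29359 / 1040) 0 1).add ((F2.mon (21923 / 1300) 0 2).add ((F2.mon (93 / 208) 0 3).add ((F2.mon (-113927761 / 579150) 1 0).add ((F2.mon (8279047 / 25740) 1 1).add ((F2.mon (-1847947 / 11700) 1 2).add ((F2.mon (1808 / 75) 1 3).add ((F2.mon (5834938 / 32175) 2 0).add ((F2.mon (-63913 / 325) 2 1).add ((F2.mon (6328 / 135) 2 2).add ((F2.mon (-56729 / 975) 3 0).add ((F2.mon (6667 / 225) 3 1).add ((F2.mon (452 / 75) 4 0))))))))))))))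
noncomputable def QA5 : F2 := (F2.mon (10 / 9) 0 0)
noncomputable def QB5 : F2 := (F2.mon (-1523 / 315) 0 0).add ((F2.mon (113 / 45) 0 1).add ((F2.mon (452 / 405) 1 0)))

theorem dim5 : ∃ E : Set (En 5), IsOpen E ∧ Convex ℝ E ∧ volume E = 1 ∧
    ∀ Ω : Set (En 5), IsThreeBalls Ω → lam 3 E < lam 3 Ω := by
  refine comparison 3 (9 / 4) (113 / 5) (403 / 20) (by norm_num) (by norm_num) (by norm_num)
    h5 PA5 PB5 QA5 QB5 (683 / 17325) (68 / 105) (by norm_num) (by norm_num) ?_ ?_
    1 (by norm_num) (by norm_num) ?_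
    (fun t => 1 + (-403 / 200) * t ^ 1 + (162409 / 112000) * t ^ 2 + (-65450827 / 120960000) * t ^ 3 + (26376683281 / 212889600000) * t ^ 4 + (-817677181711 / 42577920000000) * t ^ 5 + (329523904229533 / 153280512000000000) * t ^ 6 + (-132798133404501799 / 729615237120000000000) * t ^ 7)
    (fun t => (-403 / 200) + (162409 / 56000) * t ^ 1 + (-65450827 / 40320000) * t ^ 2 + (26376683281 / 53222400000) * t ^ 3 + (-817677181711 / 8515584000000) * t ^ 4 + (329523904229533 / 25546752000000000) * t ^ 5 + (-132798133404501799 / 104230748160000000000) * t ^ 6)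
    (fun t => (162409 / 56000) + (-65450827 / 20160000) * t ^ 1 + (26376683281 / 17740800000) * t ^ 2 + (-817677181711 / 2128896000000) * t ^ 3 + (329523904229533 / 5109350400000000) * t ^ 4 + (-132798133404501799 / 17371791360000000000) * t ^ 5) ?_ ?_ (by fun_prop) (by fun_prop) ?_ ?_
  · intro x y
    simp only [QA5, QB5, F2.add, F2.mon]
    norm_num
    ring
  · intro x y
    simp only [h5, PA5, PB5, F2.add, F2.mon]
    norm_num
    ring
  · simp only [h5, F2.add, F2.mon]
    norm_num
  · intro t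
    have e := ((((((((hasDerivAt_const t (1 : ℝ)).add ((hasDerivAt_pow 1 t).const_mul ((-403 / 200) : ℝ))).add ((hasDerivAt_pow 2 t).const_mul ((162409 / 112000) : ℝ))).add ((hasDerivAt_pow 3 t).const_mul ((-65450827 / 120960000) : ℝ))).add ((hasDerivAt_pow 4 t).const_mul ((26376683281 / 212889600000) : ℝ))).add ((hasDerivAt_pow 5 t).const_mul ((-817677181711 / 42577920000000) : ℝ))).add ((hasDerivAt_pow 6 t).const_mul ((329523904229533 / 153280512000000000) : ℝ))).add ((hasDerivAt_pow 7 t).const_mul ((-132798133404501799 / 729615237120000000000) : ℝ)))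
    refine e.congr_deriv ?_
    norm_num
    ring
  · intro t
    have e := (((((((hasDerivAt_const t ((-403 / 200) : ℝ)).add ((hasDerivAt_pow 1 t).const_mul ((162409 / 56000) : ℝ))).add ((hasDerivAt_pow 2 t).const_mul ((-65450827 / 40320000) : ℝ))).add ((hasDerivAt_pow 3 t).const_mul ((26376683281 / 53222400000) : ℝ))).add ((hasDerivAt_pow 4 t).const_mul ((-817677181711 / 8515584000000) : ℝ))).add ((hasDerivAt_pow 5 t).const_mul ((329523904229533 / 25546752000000000) : ℝ))).add ((hasDerivAt_pow 6 t).const_mul ((-132798133404501799 / 104230748160000000000) : ℝ)))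
    refine e.congr_deriv ?_
    norm_num
    ring
  · intro t h0 h1
    have hx : 0 < 1 - t := by linarith
    have e : 1 + (-403 / 200) * t ^ 1 + (162409 / 112000) * t ^ 2 + (-65450827 / 120960000) * t ^ 3 + (26376683281 / 212889600000) * t ^ 4 + (-817677181711 / 42577920000000) * t ^ 5 + (329523904229533 / 153280512000000000) * t ^ 6 + (-132798133404501799 / 729615237120000000000) * t ^ 7 = (472435590467579281 / 729615237120000000000) + (4867970963816606737 / 14890106880000000000) * (1 - t) ^ 1 + (4708552207805783467 / 11581194240000000000) * (1 - t) ^ 2 + (4188364452573548039 / 20846149632000000000) * (1 - t) ^ 3 + (1120561717270737521 / 20846149632000000000) * (1 - t) ^ 4 + (117290067976170973 / 11581194240000000000) * (1 - t) ^ 5 + (91278121471580641 / 104230748160000000000) * (1 - t) ^ 6 + (132798133404501799 / 729615237120000000000) * (1 - t) ^ 7 := by ring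
    show 0 < 1 + (-403 / 200) * t ^ 1 + (162409 / 112000) * t ^ 2 + (-65450827 / 120960000) * t ^ 3 + (26376683281 / 212889600000) * t ^ 4 + (-817677181711 / 42577920000000) * t ^ 5 + (329523904229533 / 153280512000000000) * t ^ 6 + (-132798133404501799 / 729615237120000000000) * t ^ 7
    rw [e]
    positivity
  · intro t h0 h1
    have hp : 0 ≤ t ^ 7 := by positivity
    have e : 2 * (((3 : ℕ) : ℝ) + 2) * ((-403 / 200) + (162409 / 56000) * t ^ 1 + (-65450827 / 40320000) * t ^ 2 + (26376683281 / 53222400000) * t ^ 3 + (-817677181711 / 8515584000000) * t ^ 4 + (329523904229533 / 25546752000000000) * t ^ 5 + (-132798133404501799 / 104230748160000000000) * t ^ 6) + 4 * t * ((162409 / 56000) + (-65450827 / 20160000) * t ^ 1 + (26376683281 / 17740800000) * t ^ 2 + (-817677181711 / 2128896000000) * t ^ 3 + (329523904229533 / 5109350400000000) * t ^ 4 + (-132798133404501799 / 17371791360000000000) * t ^ 5)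
        + (403 / 20) * (1 + (-403 / 200) * t ^ 1 + (162409 / 112000) * t ^ 2 + (-65450827 / 120960000) * t ^ 3 + (26376683281 / 212889600000) * t ^ 4 + (-817677181711 / 42577920000000) * t ^ 5 + (329523904229533 / 153280512000000000) * t ^ 6 + (-132798133404501799 / 729615237120000000000) * t ^ 7) = (-53517647762014224997 / 14592304742400000000000) * t ^ 7 := by
      push_cast
      ring
    show 2 * (((3 : ℕ) : ℝ) + 2) * ((-403 / 200) + (162409 / 56000) * t ^ 1 + (-65450827 / 40320000) * t ^ 2 + (26376683281 / 53222400000) * t ^ 3 + (-817677181711 / 8515584000000) * t ^ 4 + (329523904229533 / 25546752000000000) * t ^ 5 + (-132798133404501799 / 104230748160000000000) * t ^ 6) + 4 * t * ((162409 / 56000) + (-65450827 / 20160000) * t ^ 1 + (26376683281 / 17740800000) * t ^ 2 + (-817677181711 / 2128896000000) * t ^ 3 + (329523904229533 / 5109350400000000) * t ^ 4 + (-132798133404501799 / 17371791360000000000) * t ^ 5)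
        + (403 / 20) * (1 + (-403 / 200) * t ^ 1 + (162409 / 112000) * t ^ 2 + (-65450827 / 120960000) * t ^ 3 + (26376683281 / 212889600000) * t ^ 4 + (-817677181711 / 42577920000000) * t ^ 5 + (329523904229533 / 153280512000000000) * t ^ 6 + (-132798133404501799 / 729615237120000000000) * t ^ 7) ≤ 0
    rw [e]
    exact mul_nonpos_of_nonpos_of_nonneg (by norm_num) hp

/-- certificate data in dimension 6 -/
noncomputable def h6 : F2 := (F2.mon 180 0 0).add ((F2.mon (-180) 0 1).add ((F2.mon 54 0 2).add ((F2.mon (-140) 1 0).add ((F2.mon 81 1 1).add ((F2.mon 30 2 0))))))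
noncomputable def PA6 : F2 := (F2.mon (3225198129 / 546875) 0 0).add ((F2.mon (522528123 / 109375) 0 1).add ((F2.mon (-363707181 / 218750) 0 2).add ((F2.mon (-196944849 / 31250) 0 3).add ((F2.mon (-81870588 / 15625) 0 4).add ((F2.mon (-367416 / 125) 0 5))))))
noncomputable def PB6 : F2 := (F2.mon (9663343191 / 1093750) 0 0).add ((F2.mon (-12733939026 / 546875) 0 1).add ((F2.mon (25963869 / 1250) 0 2).add ((F2.mon (-1069210899 / 109375) 0 3).add ((F2.mon (107785647 / 31250) 0 4).add ((F2.mon (324 / 125) 0 5).add ((F2.mon (-3253448614 / 21875) 1 0).add ((F2.mon (8018366673 / 21875) 1 1).add ((F2.mon (-126025899 / 350) 1 2).add ((F2.mon (1121577381 / 6250) 1 3).add ((F2.mon (-10938159 / 250) 1 4).add ((F2.mon (1034451 / 250) 1 5).add ((F2.mon (5853638443 / 26250) 2 0).add ((F2.mon (-8098501647 / 17500) 2 1).add ((F2.mon (1761136083 / 5000) 2 2).add ((F2.mon (-29388987 / 250) 2 3).add ((F2.mon (14137497 / 1000) 2 4).add ((F2.mon (-381304018 / 2625) 3 0).add ((F2.mon (91906593 / 400) 3 1).add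 ((F2.mon (-117067251 / 1000) 3 2).add ((F2.mon (9539937 / 500) 3 3).add ((F2.mon (1213316 / 25) 4 0).add ((F2.mon (-2549243 / 50) 4 1).add ((F2.mon (2030589 / 160) 4 2).add ((F2.mon (-81209 / 10) 5 0).add ((F2.mon (166023 / 40) 5 1).add ((F2.mon (4257 / 8) 6 0)))))))))))))))))))))))))))
noncomputable def QA6 : F2 := (F2.mon (7 / 6) 0 0)
noncomputable def QB6 : F2 := (F2.mon (-7573 / 1500) 0 0).add ((F2.mon (1419 / 500) 0 1).add ((F2.mon (473 / 400) 1 0)))

theorem dim6 : ∃ E : Set (En 6), IsOpen E ∧ Convex ℝ E ∧ volume E = 1 ∧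
    ∀ Ω : Set (En 6), IsThreeBalls Ω → lam 3 E < lam 3 Ω := by
  refine comparison 4 (12 / 5) (1419 / 50) (527 / 20) (by norm_num) (by norm_num) (by norm_num)
    h6 PA6 PB6 QA6 QB6 (2925831 / 546875) (158 / 375) (by norm_num) (by norm_num) ?_ ?_
    1 (by norm_num) (by norm_num) ?_
    (fun t => 1 + (-527 / 240) * t ^ 1 + (277729 / 153600) * t ^ 2 + (-146363183 / 184320000) * t ^ 3 + (77133397441 / 353894400000) * t ^ 4 + (-40649300451407 / 990904320000000) * t ^ 5 + (21422181337891489 / 3805072588800000000) * t ^ 6 + (-11289489565068814703 / 19177565847552000000000) * t ^ 7)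
    (fun t => (-527 / 240) + (277729 / 76800) * t ^ 1 + (-146363183 / 61440000) * t ^ 2 + (77133397441 / 88473600000) * t ^ 3 + (-40649300451407 / 198180864000000) * t ^ 4 + (21422181337891489 / 634178764800000000) * t ^ 5 + (-11289489565068814703 / 2739652263936000000000) * t ^ 6)
    (fun t => (277729 / 76800) + (-146363183 / 30720000) * t ^ 1 + (77133397441 / 29491200000) * t ^ 2 + (-40649300451407 / 49545216000000) * t ^ 3 + (21422181337891489 / 126835752960000000) * t ^ 4 + (-11289489565068814703 / 456608710656000000000) * t ^ 5) ?_ ?_ (by fun_prop) (by fun_prop) ?_ ?_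
  · intro x y
    simp only [QA6, QB6, F2.add, F2.mon]
    norm_num
    ring
  · intro x y
    simp only [h6, PA6, PB6, F2.add, F2.mon]
    norm_num
    ring
  · simp only [h6, F2.add, F2.mon]
    norm_num
  · intro t
    have e := ((((((((hasDerivAt_const t (1 : ℝ)).add ((hasDerivAt_pow 1 t).const_mul ((-527 / 240) : ℝ))).add ((hasDerivAt_pow 2 t).const_mul ((277729 / 153600) : ℝ))).add ((hasDerivAt_pow 3 t).const_mul ((-146363183 / 184320000) : ℝ))).add ((hasDerivAt_pow 4 t).const_mul ((77133397441 / 353894400000) : ℝ))).add ((hasDerivAt_pow 5 t).const_mul ((-40649300451407 / 990904320000000) : ℝ))).add ((hasDerivAt_pow 6 t).const_mul ((21422181337891489 / 3805072588800000000) : ℝ))).add ((hasDerivAt_pow 7 t).const_mul ((-11289489565068814703 / 19177565847552000000000) : ℝ)))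
    refine e.congr_deriv ?_
    norm_num
    ring
  · intro t
    have e := (((((((hasDerivAt_const t ((-527 / 240) : ℝ)).add ((hasDerivAt_pow 1 t).const_mul ((277729 / 76800) : ℝ))).add ((hasDerivAt_pow 2 t).const_mul ((-146363183 / 61440000) : ℝ))).add ((hasDerivAt_pow 3 t).const_mul ((77133397441 / 88473600000) : ℝ))).add ((hasDerivAt_pow 4 t).const_mul ((-40649300451407 / 198180864000000) : ℝ))).add ((hasDerivAt_pow 5 t).const_mul ((21422181337891489 / 634178764800000000) : ℝ))).add ((hasDerivAt_pow 6 t).const_mul ((-11289489565068814703 / 2739652263936000000000) : ℝ)))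
    refine e.congr_deriv ?_
    norm_num
    ring
  · intro t h0 h1
    have hx : 0 < 1 - t := by linarith
    have e : 1 + (-527 / 240) * t ^ 1 + (277729 / 153600) * t ^ 2 + (-146363183 / 184320000) * t ^ 3 + (77133397441 / 353894400000) * t ^ 4 + (-40649300451407 / 990904320000000) * t ^ 5 + (21422181337891489 / 3805072588800000000) * t ^ 6 + (-11289489565068814703 / 19177565847552000000000) * t ^ 7 = (3871006529510254657 / 19177565847552000000000) + (727139877926002990223 / 2739652263936000000000) * (1 - t) ^ 1 + (361192087343405313697 / 913217421312000000000) * (1 - t) ^ 2 + (131764855430469121583 / 547930452787200000000) * (1 - t) ^ 3 + (42019949893857735937 / 547930452787200000000) * (1 - t) ^ 4 + (17903943734521761743 / 913217421312000000000) * (1 - t) ^ 5 + (4134480998213057377 / 2739652263936000000000) * (1 - t) ^ 6 + (11289489565068814703 / 19177565847552000000000) * (1 - t) ^ 7 := by ring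
    show 0 < 1 + (-527 / 240) * t ^ 1 + (277729 / 153600) * t ^ 2 + (-146363183 / 184320000) * t ^ 3 + (77133397441 / 353894400000) * t ^ 4 + (-40649300451407 / 990904320000000) * t ^ 5 + (21422181337891489 / 3805072588800000000) * t ^ 6 + (-11289489565068814703 / 19177565847552000000000) * t ^ 7
    rw [e]
    positivity
  · intro t h0 h1
    have hp : 0 ≤ t ^ 7 := by positivity
    have e : 2 * (((4 : ℕ) : ℝ) + 2) * ((-527 / 240) + (277729 / 76800) * t ^ 1 + (-146363183 / 61440000) * t ^ 2 + (77133397441 / 88473600000) * t ^ 3 + (-40649300451407 / 198180864000000) * t ^ 4 + (21422181337891489 / 634178764800000000) * t ^ 5 + (-11289489565068814703 / 2739652263936000000000) * t ^ 6) + 4 * t * ((277729 / 76800) + (-146363183 / 30720000) * t ^ 1 + (77133397441 / 29491200000) * t ^ 2 + (-40649300451407 / 49545216000000) * t ^ 3 + (21422181337891489 / 126835752960000000) * t ^ 4 + (-11289489565068814703 / 456608710656000000000) * t ^ 5)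
        + (527 / 20) * (1 + (-527 / 240) * t ^ 1 + (277729 / 153600) * t ^ 2 + (-146363183 / 184320000) * t ^ 3 + (77133397441 / 353894400000) * t ^ 4 + (-40649300451407 / 990904320000000) * t ^ 5 + (21422181337891489 / 3805072588800000000) * t ^ 6 + (-11289489565068814703 / 19177565847552000000000) * t ^ 7) = (-5949561000791265348481 / 383551316951040000000000) * t ^ 7 := by
      push_cast
      ring
    show 2 * (((4 : ℕ) : ℝ) + 2) * ((-527 / 240) + (277729 / 76800) * t ^ 1 + (-146363183 / 61440000) * t ^ 2 + (77133397441 / 88473600000) * t ^ 3 + (-40649300451407 / 198180864000000) * t ^ 4 + (21422181337891489 / 634178764800000000) * t ^ 5 + (-11289489565068814703 / 2739652263936000000000) * t ^ 6) + 4 * t * ((277729 / 76800) + (-146363183 / 30720000) * t ^ 1 + (77133397441 / 29491200000) * t ^ 2 + (-40649300451407 / 49545216000000) * t ^ 3 + (21422181337891489 / 126835752960000000) * t ^ 4 + (-11289489565068814703 / 456608710656000000000) * t ^ 5)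
        + (527 / 20) * (1 + (-527 / 240) * t ^ 1 + (277729 / 153600) * t ^ 2 + (-146363183 / 184320000) * t ^ 3 + (77133397441 / 353894400000) * t ^ 4 + (-40649300451407 / 990904320000000) * t ^ 5 + (21422181337891489 / 3805072588800000000) * t ^ 6 + (-11289489565068814703 / 19177565847552000000000) * t ^ 7) ≤ 0
    rw [e]
    exact mul_nonpos_of_nonpos_of_nonneg (by norm_num) hp

end Pool.Agent.Lib.MP_7d358c_an
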