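import Pool.Agent.Lib.MP_7d358c_an.Basic

/-!
# Smooth cut-offs of the positive part, and the limit lemma
-/

open MeasureTheory Filter Topology
open scoped ContDiff

namespace Pool.Agent.Lib.MP_7d358c_an

/-- smooth approximation of the positive part of `t`, vanishing for `t ≤ 1/(k+1)` -/
noncomputable def HH (k : ℕ) (t : ℝ) : ℝ := t * Real.smoothTransition ((k + 1) * t - 1)

/-- its derivative -/
noncomputable def HD (k : ℕ) (t : ℝ) : ℝ :=
  Real.smoothTransition ((k + 1) * t - 1) + t * (deriv Real.smoothTransition ((k + 1) * t - 1) * (k + 1))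

lemma contDiff_smoothTransition : ContDiff ℝ ∞ Real.smoothTransition := Real.smoothTransition.contDiff

lemma hasDerivAt_HH (k : ℕ) (t : ℝ) : HasDerivAt (HH k) (HD k t) t := by
  have h1 : HasDerivAt (fun t : ℝ => ((k:ℝ) + 1) * t - 1) (k + 1) t := by
    simpa using ((hasDerivAt_id t).const_mul ((k:ℝ) + 1)).sub_const 1
  have h2 : HasDerivAt Real.smoothTransition (deriv Real.smoothTransition (((k:ℝ) + 1) * t - 1))
      (((k:ℝ) + 1) * t - 1) :=
    ((contDiff_smoothTransition.differentiable (by simp)) _).hasDerivAt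
  have h3 := (hasDerivAt_id t).mul (h2.comp t h1)
  have : HD k t = 1 * (Real.smoothTransition ∘ fun t : ℝ => ((k:ℝ) + 1) * t - 1) t
      + id t * (deriv Real.smoothTransition (((k:ℝ) + 1) * t - 1) * (k + 1)) := by
    simp [HD]
  rw [this]
  exact h3

lemma contDiff_HH (k : ℕ) : ContDiff ℝ ∞ (HH k) := by
  unfold HH
  exact contDiff_id.mul (contDiff_smoothTransition.comp
    ((contDiff_const.mul contDiff_id).sub contDiff_const))

lemma continuous_HD (k : ℕ) : Continuous (HD k) := by
  have : HD k = deriv (HH k) := by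
    funext t; exact (hasDerivAt_HH k t).deriv.symm
  rw [this]
  exact (contDiff_HH k).continuous_deriv (by simp)

lemma deriv_st_zero {x : ℝ} (hx : x ≤ 0) : deriv Real.smoothTransition x = 0 := by
  have : IsLocalMin Real.smoothTransition x := by
    refine Eventually.of_forall fun y => ?_
    rw [Real.smoothTransition.zero_of_nonpos hx]
    exact Real.smoothTransition.nonneg y
  exact this.deriv_eq_zero

lemma deriv_st_one {x : ℝ} (hx : 1 ≤ x) : deriv Real.smoothTransition x = 0 := by
  have : IsLocalMax Real.smoothTransition x := by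
    refine Eventually.of_forall fun y => ?_
    rw [Real.smoothTransition.one_of_one_le hx]
    exact Real.smoothTransition.le_one y
  exact this.deriv_eq_zero

lemma HH_zero {k : ℕ} {t : ℝ} (ht : (k + 1) * t ≤ 1) : HH k t = 0 := by
  rw [HH, Real.smoothTransition.zero_of_nonpos (by linarith), mul_zero]

lemma HD_zero {k : ℕ} {t : ℝ} (ht : (k + 1) * t ≤ 1) : HD k t = 0 := by
  rw [HD, Real.smoothTransition.zero_of_nonpos (by linarith), deriv_st_zero (by linarith)]
  simp

lemma HH_eq {k : ℕ} {t : ℝ} (ht : 2 ≤ (k + 1) * t) : HH k t = t := by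
  rw [HH, Real.smoothTransition.one_of_one_le (by linarith), mul_one]

lemma HD_eq {k : ℕ} {t : ℝ} (ht : 2 ≤ (k + 1) * t) : HD k t = 1 := by
  rw [HD, Real.smoothTransition.one_of_one_le (by linarith), deriv_st_one (by linarith)]
  simp

lemma HH_nonneg (k : ℕ) {t : ℝ} (ht : 0 ≤ t) : 0 ≤ HH k t :=
  mul_nonneg ht (Real.smoothTransition.nonneg _)

lemma HH_le (k : ℕ) {t : ℝ} (ht : 0 ≤ t) : HH k t ≤ t :=
  mul_le_of_le_one_right ht (Real.smoothTransition.le_one _)

lemma exists_bound_HD : ∃ C : ℝ, 0 ≤ C ∧ ∀ k : ℕ, ∀ t : ℝ, |HD k t| ≤ C := by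
  have hc : Continuous (deriv Real.smoothTransition) :=
    contDiff_smoothTransition.continuous_deriv (by simp)
  obtain ⟨M, hM⟩ := (isCompact_Icc (a := (0:ℝ)) (b := 1)).exists_bound_of_continuousOn hc.continuousOn
  have hM0 : 0 ≤ M := (norm_nonneg _).trans (hM 0 (by simp))
  refine ⟨1 + 2 * M, by positivity, fun k t => ?_⟩
  have hk : (0:ℝ) < k + 1 := by positivity
  have h1 : |Real.smoothTransition ((k + 1) * t - 1)| ≤ 1 := by
    rw [abs_of_nonneg (Real.smoothTransition.nonneg _)]
    exact Real.smoothTransition.le_one _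
  have h2 : |t * (deriv Real.smoothTransition ((k + 1) * t - 1) * (k + 1))| ≤ 2 * M := by
    by_cases ha : (k + 1) * t - 1 ≤ 0
    · rw [deriv_st_zero ha]; simp [hM0]
    by_cases hb : 1 ≤ (k + 1) * t - 1
    · rw [deriv_st_one hb]; simp [hM0]
    push Not at ha hb
    have h3 := hM ((k + 1) * t - 1) ⟨ha.le, hb.le⟩
    rw [Real.norm_eq_abs] at h3
    have h4 : t * (deriv Real.smoothTransition ((k + 1) * t - 1) * (k + 1))
        = ((k + 1) * t) * deriv Real.smoothTransition ((k + 1) * t - 1) := by ring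
    rw [h4, abs_mul]
    refine mul_le_mul ?_ h3 (abs_nonneg _) (by norm_num)
    rw [abs_of_nonneg (by linarith)]
    linarith
  exact (abs_add_le _ _).trans (by linarith)

lemma tendsto_integral_cutoff {N : ℕ} (w : En N → ℝ) (hw : Continuous w)
    (hK : IsCompact {z | 0 ≤ w z}) (Θ : En N → ℝ → ℝ → ℝ)
    (hΘ : Continuous fun p : En N × ℝ × ℝ => Θ p.1 p.2.1 p.2.2) (h0 : ∀ z, Θ z 0 0 = 0) :
    Tendsto (fun k : ℕ => ∫ z, Θ z (HH k (w z)) (HD k (w z))) atTop
      (𝓝 (∫ z in {z | 0 < w z}, Θ z (w z) 1)) := by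
  obtain ⟨C, hC0, hC⟩ := exists_bound_HD
  obtain ⟨W, hW⟩ := hK.exists_bound_of_continuousOn hw.continuousOn
  have hS : MeasurableSet {z : En N | 0 < w z} := (isOpen_lt continuous_const hw).measurableSet
  rw [← integral_indicator hS]
  obtain ⟨M, hM⟩ := ((hK.prod ((isCompact_Icc (a := (0:ℝ)) (b := W)).prod
    (isCompact_Icc (a := -C) (b := C))))).exists_bound_of_continuousOn hΘ.continuousOn
  have hKm : MeasurableSet {z : En N | 0 ≤ w z} := hK.measurableSet
  have hneg : ∀ k : ℕ, ∀ z, w z ≤ 0 → Θ z (HH k (w z)) (HD k (w z)) = 0 := by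
    intro k z hz
    have : ((k:ℝ) + 1) * w z ≤ 1 := by
      have : (0:ℝ) < k + 1 := by positivity
      nlinarith
    rw [HH_zero this, HD_zero this, h0]
  refine tendsto_integral_of_dominated_convergence
    ({z : En N | 0 ≤ w z}.indicator fun _ => M) ?_ ?_ ?_ ?_
  · intro k
    have : Continuous fun z => Θ z (HH k (w z)) (HD k (w z)) :=
      hΘ.comp (continuous_id.prodMk (((contDiff_HH k).continuous.comp hw).prodMk
        ((continuous_HD k).comp hw)))
    exact this.aestronglyMeasurable
  · rw [integrable_indicator_iff hKm]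
    exact integrableOn_const hK.measure_lt_top.ne
  · intro k
    refine Eventually.of_forall fun z => ?_
    by_cases hz : 0 ≤ w z
    · rw [Set.indicator_of_mem (by exact hz)]
      have h1 : HH k (w z) ∈ Set.Icc 0 W :=
        ⟨HH_nonneg k hz, (HH_le k hz).trans ((le_abs_self _).trans (by
          have := hW z hz; rwa [Real.norm_eq_abs] at this))⟩
      have h2 : HD k (w z) ∈ Set.Icc (-C) C := abs_le.mp (hC k (w z))
      exact hM (z, HH k (w z), HD k (w z)) ⟨hz, h1, h2⟩
    · rw [Set.indicator_of_notMem (by exact hz), hneg k z (by linarith)]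
      simp
  · refine Eventually.of_forall fun z => ?_
    by_cases hz : 0 < w z
    · rw [Set.indicator_of_mem (by exact hz)]
      refine tendsto_const_nhds.congr' ?_
      have h1 : ∀ᶠ k : ℕ in atTop, 2 / w z ≤ k := by
        obtain ⟨n, hn⟩ := exists_nat_ge (2 / w z)
        filter_upwards [eventually_ge_atTop n] with k hk
        exact hn.trans (by exact_mod_cast hk)
      filter_upwards [h1] with k hk
      have h2 : 2 ≤ ((k:ℝ) + 1) * w z := by
        rw [div_le_iff₀ hz] at hk
        nlinarith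
      rw [HH_eq h2, HD_eq h2]
    · rw [Set.indicator_of_notMem (by exact hz)]
      refine tendsto_const_nhds.congr fun k => ?_
      rw [hneg k z (by linarith)]

end Pool.Agent.Lib.MP_7d358c_an
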