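import Pool.Agent.Lib.MP_7d358c_an.Balls

/-!
# The ellipsoid, its volume, and the comparison theorem
-/

open MeasureTheory Filter Topology Metric
open scoped ContDiff

namespace Pool.Agent.Lib.MP_7d358c_an

variable {n : ℕ}

/-- `1 - x/a - y` -/
noncomputable def WW (a : ℝ) : F2 :=
  (F2.mon 1 0 0).add ((F2.mon (-1 / a) 1 0).add (F2.mon (-1) 0 1))

lemma WW_f (a x y : ℝ) : (WW a).f x y = 1 - x / a - y := by
  simp [WW, F2.add, F2.mon]; ring

lemma WW_fx (a x y : ℝ) : (WW a).fx x y = -1 / a := by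
  simp [WW, F2.add, F2.mon]

lemma WW_fy (a x y : ℝ) : (WW a).fy x y = -1 := by
  simp [WW, F2.add, F2.mon]

lemma YY_nonneg (z : En (n + 2)) : 0 ≤ YY z := by
  rw [YY_eq]; exact Finset.sum_nonneg fun j _ => sq_nonneg _

lemma XX_nonneg (z : En (n + 2)) : 0 ≤ XX z := by
  rw [XX]; positivity

lemma WW_compact (a s : ℝ) (ha : 0 < a) (hs : 0 < s) :
    IsCompact {z : En (n + 2) | 0 ≤ (WW a).on s z} := by
  refine isCompact_of_isClosed_isBounded
    (isClosed_le continuous_const ((WW a).on_contDiff s).continuous) ?_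
  refine (isBounded_closedBall (x := (0 : En (n + 2))) (r := Real.sqrt ((a + 1) / s))).subset ?_
  intro z hz
  have h : 0 ≤ 1 - s * XX z / a - s * YY z := by
    have := hz
    rw [Set.mem_ofPred_eq, F2.on, WW_f] at this
    exact this
  rw [mem_closedBall_zero_iff]
  refine Real.le_sqrt_of_sq_le ?_
  have h1 : ‖z‖ ^ 2 = XX z + YY z := by rw [YY]; ring
  have hX := XX_nonneg z
  have hY := YY_nonneg z
  have h2 : s * XX z ≤ a := by
    have : s * XX z / a ≤ 1 := by nlinarith [mul_nonneg hs.le hY]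
    rwa [div_le_one ha] at this
  have h3 : s * YY z ≤ 1 := by
    have : 0 ≤ s * XX z / a := by positivity
    linarith
  rw [h1, le_div_iff₀ hs]
  linarith

/-- diagonal matrix of the ellipsoid -/
noncomputable def dd (n : ℕ) (a σ : ℝ) (i : Fin (n + 2)) : ℝ :=
  if i = 0 then σ / Real.sqrt a else if i = 1 then σ / Real.sqrt a else σ

lemma dd_zero (a σ : ℝ) : dd n a σ 0 = σ / Real.sqrt a := by simp [dd]

lemma dd_one (a σ : ℝ) : dd n a σ 1 = σ / Real.sqrt a := by simp [dd]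

lemma dd_succ (a σ : ℝ) (j : Fin n) : dd n a σ j.succ.succ = σ := by
  have e0 : (Fin.succ (Fin.succ j)) ≠ (0 : Fin (n + 2)) := Fin.succ_ne_zero _
  have e1 : (Fin.succ (Fin.succ j)) ≠ (1 : Fin (n + 2)) := by
    intro h
    have : (Fin.succ (Fin.succ j) : Fin (n + 2)) = Fin.succ 0 := h
    exact (Fin.succ_ne_zero _) (Fin.succ_injective _ this)
  simp [dd, e0, e1]

lemma prod_dd (a σ : ℝ) (ha : 0 < a) : ∏ i, dd n a σ i = σ ^ (n + 2) / a := by
  rw [Fin.prod_univ_succ, Fin.prod_univ_succ]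
  have h0 : dd n a σ (Fin.succ 0) = σ / Real.sqrt a := dd_one a σ
  rw [dd_zero, h0]
  simp only [dd_succ]
  rw [Finset.prod_const, Finset.card_univ, Fintype.card_fin, ← mul_assoc, div_mul_div_comm,
    Real.mul_self_sqrt ha.le, pow_add]
  ring

lemma norm_sq_dd (a σ : ℝ) (ha : 0 < a) (z : En (n + 2)) :
    ‖Matrix.toEuclideanLin (Matrix.diagonal (dd n a σ)) z‖ ^ 2 = σ ^ 2 * XX z / a + σ ^ 2 * YY z := by
  rw [EuclideanSpace.norm_sq_eq]
  have h : ∀ i, ‖(Matrix.toEuclideanLin (Matrix.diagonal (dd n a σ)) z) i‖ ^ 2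
      = (dd n a σ i * z i) ^ 2 := by
    intro i
    rw [Matrix.ofLp_toLpLin, Matrix.toLin'_apply, Matrix.mulVec_diagonal, Real.norm_eq_abs, sq_abs]
  rw [Finset.sum_congr rfl fun i _ => h i, Fin.sum_univ_succ, Fin.sum_univ_succ]
  have h0 : dd n a σ (Fin.succ 0) = σ / Real.sqrt a := dd_one a σ
  rw [dd_zero, h0]
  simp only [dd_succ]
  have hsum : ∑ x : Fin n, (σ * z x.succ.succ) ^ 2 = σ ^ 2 * YY z := by
    rw [YY_eq, Finset.mul_sum]
    exact Finset.sum_congr rfl fun j _ => by ring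
  have hz1 : z (Fin.succ 0) = z 1 := rfl
  rw [hsum, hz1, XX, mul_pow, mul_pow, div_pow, Real.sq_sqrt ha.le]
  ring

lemma ellipsoid_eq (a σ : ℝ) (ha : 0 < a) :
    {z : En (n + 2) | 0 < (WW a).on (σ ^ 2) z}
      = (Matrix.toEuclideanLin (Matrix.diagonal (dd n a σ))) ⁻¹' ball (0 : En (n + 2)) 1 := by
  ext z
  rw [Set.mem_ofPred_eq, Set.mem_preimage, mem_ball_zero_iff, F2.on, WW_f]
  have h := norm_sq_dd a σ ha z
  have hn := norm_nonneg (Matrix.toEuclideanLin (Matrix.diagonal (dd n a σ)) z)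
  constructor
  · intro h1
    nlinarith
  · intro h1
    nlinarith

lemma ellipsoid_volume (a σ : ℝ) (ha : 0 < a) (hσ : 0 < σ) :
    volume {z : En (n + 2) | 0 < (WW a).on (σ ^ 2) z}
      = ENNReal.ofReal (a / σ ^ (n + 2)) * volume (ball (0 : En (n + 2)) 1) := by
  have hdet : LinearMap.det (Matrix.toEuclideanLin (Matrix.diagonal (dd n a σ))) = σ ^ (n + 2) / a := by
    rw [Matrix.toEuclideanLin_eq_toLin, LinearMap.det_toLin, Matrix.det_diagonal, prod_dd a σ ha]
  have hne : LinearMap.det (Matrix.toEuclideanLin (Matrix.diagonal (dd n a σ))) ≠ 0 := by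
    rw [hdet]; positivity
  rw [ellipsoid_eq a σ ha, Measure.addHaar_preimage_linearMap _ hne, hdet, inv_div,
    abs_of_pos (by positivity)]

lemma ellipsoid_convex (a σ : ℝ) (ha : 0 < a) :
    Convex ℝ {z : En (n + 2) | 0 < (WW a).on (σ ^ 2) z} := by
  rw [ellipsoid_eq a σ ha]
  exact (convex_ball _ _).linear_preimage _

/-- **Comparison**: certificates for the ellipsoid and a radial supersolution for the ball give an
open convex set of volume `1` with smaller third eigenvalue than any three balls of volume `1/3`. -/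
theorem comparison (n : ℕ) (a L μ : ℝ) (ha : 0 < a) (hμ : 0 ≤ μ)
    (hnum : L ^ (n + 2) * a ^ 2 < 9 * μ ^ (n + 2))
    (h P1 P3 Q1 Q3 : F2) (κ κ' : ℝ) (hκ : 0 < κ) (hκ' : 0 < κ')
    (hD1 : ∀ x y, 4 * (x * (1 / a) ^ 2 + y) - L * (1 - x / a - y) ^ 2
      = -κ' + (2 * (Q1.f x y * (1 - x / a - y))
      + 2 * x * (Q1.fx x y * (1 - x / a - y) + Q1.f x y * (-1 / a)))
      + (((n : ℝ) + 2) * (Q3.f x y * (1 - x / a - y))
      + 2 * x * (Q3.fx x y * (1 - x / a - y) + Q3.f x y * (-1 / a))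
      + 2 * y * (Q3.fy x y * (1 - x / a - y) + Q3.f x y * (-1))))
    (hD2 : ∀ x y, 2 * (h.f x y * (1 - x / a - y)) ^ 2
      + 4 * x * (h.f x y * (1 - x / a - y)) * (h.fx x y * (1 - x / a - y) + h.f x y * (-1 / a))
      + 4 * x ^ 2 * (h.fx x y * (1 - x / a - y) + h.f x y * (-1 / a)) ^ 2
      + 4 * x * y * (h.fy x y * (1 - x / a - y) + h.f x y * (-1)) ^ 2
      - L * x * (h.f x y * (1 - x / a - y)) ^ 2
      = -κ + (2 * (P1.f x y * (1 - x / a - y))
      + 2 * x * (P1.fx x y * (1 - x / a - y) + P1.f x y * (-1 / a)))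
      + (((n : ℝ) + 2) * (P3.f x y * (1 - x / a - y))
      + 2 * x * (P3.fx x y * (1 - x / a - y) + P3.f x y * (-1 / a))
      + 2 * y * (P3.fy x y * (1 - x / a - y) + P3.f x y * (-1))))
    (x0 : ℝ) (hx0 : 0 < x0) (hx0a : x0 < a) (hhx : h.f x0 0 ≠ 0)
    (g g' g'' : ℝ → ℝ)
    (hg : ∀ t, HasDerivAt g (g' t) t) (hg' : ∀ t, HasDerivAt g' (g'' t) t)
    (hgc : ContDiff ℝ 1 g) (hgc' : ContDiff ℝ 1 g')
    (hpos : ∀ t, 0 ≤ t → t < 1 → 0 < g t)
    (hineq : ∀ t, 0 ≤ t → t < 1 → 2 * ((n : ℝ) + 2) * g' t + 4 * t * g'' t + μ * g t ≤ 0) :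
    ∃ E : Set (En (n + 2)), IsOpen E ∧ Convex ℝ E ∧ volume E = 1 ∧
      ∀ Ω : Set (En (n + 2)), IsThreeBalls Ω → lam 3 E < lam 3 Ω := by
  -- volume of the unit ball
  set vb := (volume (ball (0 : En (n + 2)) 1)).toReal with hvb
  have hvbfin : volume (ball (0 : En (n + 2)) 1) ≠ ⊤ := measure_ball_lt_top.ne
  have hvbpos : 0 < vb := ENNReal.toReal_pos (isOpen_ball.measure_pos volume ⟨0, by simp⟩).ne' hvbfin
  have hvbof : volume (ball (0 : En (n + 2)) 1) = ENNReal.ofReal vb :=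
    (ENNReal.ofReal_toReal hvbfin).symm
  have hNne : n + 2 ≠ 0 := by omega
  -- choice of the scale
  obtain ⟨σ, hσ, hσN⟩ : ∃ σ : ℝ, 0 < σ ∧ σ ^ (n + 2) = a * vb := by
    refine ⟨(a * vb) ^ ((1 : ℝ) / ((n + 2 : ℕ) : ℝ)), Real.rpow_pos_of_pos (by positivity) _, ?_⟩
    rw [one_div]
    exact Real.rpow_inv_natCast_pow (by positivity) hNne
  have hs : 0 < σ ^ 2 := by positivity
  have hK := WW_compact (n := n) a (σ ^ 2) ha hs
  refine ⟨{z : En (n + 2) | 0 < (WW a).on (σ ^ 2) z},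
    isOpen_lt continuous_const ((WW a).on_contDiff _).continuous, ellipsoid_convex a σ ha, ?_, ?_⟩
  · rw [ellipsoid_volume a σ ha hσ, hvbof, ← ENNReal.ofReal_mul (by positivity), hσN]
    rw [show a / (a * vb) * vb = 1 by field_simp, ENNReal.ofReal_one]
  · rintro Ω ⟨x, r, hvol, hdis, rfl⟩
    have hup : lam 3 {z : En (n + 2) | 0 < (WW a).on (σ ^ 2) z} ≤ L * σ ^ 2 := by
      refine lam_le (WW a) h (σ ^ 2) L hs hK ?_ ?_ (by rw [WW_f]; norm_num) x0 hx0 ?_ hhx
      · have hc := certificate (n := n) (WW a) Q1 Q3 (σ ^ 2) hK (by rw [WW_f]; norm_num)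
          (fun x y => 4 * (x * (1 / a) ^ 2 + y) - L * (1 - x / a - y) ^ 2) κ' hκ'
          (fun x y => by
            simp only [WW_f, WW_fx, WW_fy]
            exact hD1 x y)
        refine lt_of_eq_of_lt (integral_congr_ae (Eventually.of_forall fun z => ?_)) hc
        simp only [Th1, F2.on, WW_f, WW_fx, WW_fy]
        ring
      · have hc := certificate (n := n) (WW a) P1 P3 (σ ^ 2) hK (by rw [WW_f]; norm_num)
          (fun x y => 2 * (h.f x y * (1 - x / a - y)) ^ 2
            + 4 * x * (h.f x y * (1 - x / a - y)) * (h.fx x y * (1 - x / a - y) + h.f x y * (-1 / a))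
            + 4 * x ^ 2 * (h.fx x y * (1 - x / a - y) + h.f x y * (-1 / a)) ^ 2
            + 4 * x * y * (h.fy x y * (1 - x / a - y) + h.f x y * (-1)) ^ 2
            - L * x * (h.f x y * (1 - x / a - y)) ^ 2) κ hκ
          (fun x y => by
            simp only [WW_f, WW_fx, WW_fy]
            exact hD2 x y)
        refine lt_of_eq_of_lt (integral_congr_ae (Eventually.of_forall fun z => ?_)) hc
        simp only [Th2, F2.on, WW_f, WW_fx, WW_fy]
        ring
      · rw [WW_f]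
        have : x0 / a < 1 := by rwa [div_lt_one ha]
        linarith
    -- radii
    have hrpos : ∀ i, 0 < r i := by
      intro i
      by_contra hcon
      push Not at hcon
      have := hvol i
      rw [ball_eq_empty.mpr hcon, measure_empty] at this
      exact absurd this.symm (by simp)
    have hrN : ∀ i, (r i) ^ (n + 2) * vb = 1 / 3 := by
      intro i
      have h1 := hvol i
      rw [Measure.addHaar_ball_of_pos _ _ (hrpos i), hvbof, finrank_euclideanSpace_fin,
        ← ENNReal.ofReal_mul (pow_nonneg (hrpos i).le _)] at h1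
      have h2 : (1 / 3 : ENNReal) = ENNReal.ofReal (1 / 3) := by
        rw [ENNReal.ofReal_div_of_pos (by norm_num)]; simp
      rw [h2] at h1
      have hp := hrpos i
      exact (ENNReal.ofReal_eq_ofReal_iff (by positivity) (by norm_num)).mp h1
    have hreq : ∀ i, r i = r 0 := by
      intro i
      have h1 : (r i) ^ (n + 2) = (r 0) ^ (n + 2) := by
        have := (hrN i).trans (hrN 0).symm
        exact mul_right_cancel₀ hvbpos.ne' this
      exact (pow_left_inj₀ (hrpos i).le (hrpos 0).le hNne).mp h1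
    have hU : (⋃ i, ball (x i) (r i)) = ⋃ i, ball (x i) (r 0) := by
      simp only [hreq]
    have hlow : μ / (r 0) ^ 2 ≤ lam 3 (⋃ i, ball (x i) (r 0)) := by
      refine le_lam_balls x (r 0) (hrpos 0) (fun i j hij => ?_) μ g g' g'' hg hg' hgc hgc' hpos
        (fun t h0 h1 => ?_)
      · have := hdis i j hij
        rwa [hreq i, hreq j] at this
      · have := hineq t h0 h1
        push_cast
        exact this
    rw [hU]
    refine hup.trans_lt (lt_of_lt_of_le ?_ hlow)
    have hr0 := hrpos 0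
    have hp : (L * σ ^ 2) ^ (n + 2) < (μ / (r 0) ^ 2) ^ (n + 2) := by
      have e1 : (L * σ ^ 2) ^ (n + 2) = L ^ (n + 2) * (a * vb) ^ 2 := by
        rw [mul_pow, ← pow_mul, mul_comm 2 (n + 2), pow_mul, hσN]
      have e2 : (μ / (r 0) ^ 2) ^ (n + 2) = 9 * μ ^ (n + 2) * vb ^ 2 := by
        rw [div_pow, ← pow_mul, mul_comm 2 (n + 2), pow_mul]
        have h3 : (r 0) ^ (n + 2) = 1 / (3 * vb) := by
          have := hrN 0
          field_simp
          linarith
        rw [h3]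
        field_simp
        ring
      rw [e1, e2]
      have : 0 < vb ^ 2 := by positivity
      nlinarith
    exact lt_of_pow_lt_pow_left₀ _ (by positivity) hp

end Pool.Agent.Lib.MP_7d358c_an
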