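import Pool.Agent.Lib.MP_7d358c_an.Ball
import Pool.Agent.Lib.MP_7d358c_an.Cutoff

/-!
# Functions of two radial variables on `ℝ² × ℝⁿ`: derivatives, energies, rotations
-/

open MeasureTheory Filter Topology
open scoped ContDiff

namespace Pool.Agent.Lib.MP_7d358c_an

variable {n : ℕ}

/-- squared length of the first two coordinates -/
noncomputable def XX (z : En (n + 2)) : ℝ := z 0 ^ 2 + z 1 ^ 2

/-- squared length of the other coordinates -/
noncomputable def YY (z : En (n + 2)) : ℝ := ‖z‖ ^ 2 - XX z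

lemma YY_eq (z : En (n + 2)) : YY z = ∑ j : Fin n, (z j.succ.succ) ^ 2 := by
  rw [YY, XX, EuclideanSpace.norm_sq_eq, Fin.sum_univ_succ, Fin.sum_univ_succ]
  simp

/-- differential of `XX` -/
noncomputable def dX (z : En (n + 2)) : En (n + 2) →L[ℝ] ℝ :=
  (2 * z 0) • (EuclideanSpace.proj 0 : En (n + 2) →L[ℝ] ℝ)
    + (2 * z 1) • (EuclideanSpace.proj 1 : En (n + 2) →L[ℝ] ℝ)

/-- differential of `YY` -/
noncomputable def dY (z : En (n + 2)) : En (n + 2) →L[ℝ] ℝ := 2 • innerSL ℝ z - dX z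

lemma dX_apply (z v : En (n + 2)) : dX z v = 2 * z 0 * v 0 + 2 * z 1 * v 1 := by
  simp [dX]

lemma dY_apply (z v : En (n + 2)) : dY z v = 2 * inner ℝ z v - (2 * z 0 * v 0 + 2 * z 1 * v 1) := by
  simp [dY, dX_apply]

lemma hasFDerivAt_XX (z : En (n + 2)) : HasFDerivAt XX (dX z) z := by
  have h0 := (hasFDerivAt_coord (0 : Fin (n + 2)) z).pow 2
  have h1 := (hasFDerivAt_coord (1 : Fin (n + 2)) z).pow 2
  have h := h0.add h1
  have e : dX z = ((2 : ℕ) • z 0 ^ (2 - 1)) • (EuclideanSpace.proj 0 : En (n + 2) →L[ℝ] ℝ)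
      + ((2 : ℕ) • z 1 ^ (2 - 1)) • (EuclideanSpace.proj 1 : En (n + 2) →L[ℝ] ℝ) := by
    ext v; simp [dX]
  rw [e]
  exact h

lemma hasFDerivAt_YY (z : En (n + 2)) : HasFDerivAt YY (dY z) z :=
  (hasStrictFDerivAt_norm_sq z).hasFDerivAt.sub (hasFDerivAt_XX z)

lemma contDiff_XX : ContDiff ℝ ∞ (XX : En (n + 2) → ℝ) := by
  unfold XX
  exact ((EuclideanSpace.proj 0 : En (n + 2) →L[ℝ] ℝ).contDiff.pow 2).add
    ((EuclideanSpace.proj 1 : En (n + 2) →L[ℝ] ℝ).contDiff.pow 2)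

lemma contDiff_YY : ContDiff ℝ ∞ (YY : En (n + 2) → ℝ) := by
  unfold YY
  exact (contDiff_id.norm_sq ℝ).sub contDiff_XX

/-- a smooth function of two variables with its partial derivatives -/
structure F2 where
  f : ℝ → ℝ → ℝ
  fx : ℝ → ℝ → ℝ
  fy : ℝ → ℝ → ℝ
  hd : ∀ x y, HasFDerivAt (fun p : ℝ × ℝ => f p.1 p.2)
    (fx x y • ContinuousLinearMap.fst ℝ ℝ ℝ + fy x y • ContinuousLinearMap.snd ℝ ℝ ℝ) (x, y)
  hs : ContDiff ℝ ∞ fun p : ℝ × ℝ => f p.1 p.2

namespace F2

lemma cont (F : F2) : Continuous fun p : ℝ × ℝ => F.f p.1 p.2 := F.hs.continuous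

lemma contx (F : F2) : Continuous fun p : ℝ × ℝ => F.fx p.1 p.2 := by
  have : (fun p : ℝ × ℝ => F.fx p.1 p.2) = fun p => fderiv ℝ (fun p : ℝ × ℝ => F.f p.1 p.2) p (1, 0) := by
    funext p
    rw [(F.hd p.1 p.2).fderiv]
    simp
  rw [this]
  exact (F.hs.continuous_fderiv (by simp)).clm_apply continuous_const

lemma conty (F : F2) : Continuous fun p : ℝ × ℝ => F.fy p.1 p.2 := by
  have : (fun p : ℝ × ℝ => F.fy p.1 p.2) = fun p => fderiv ℝ (fun p : ℝ × ℝ => F.f p.1 p.2) p (0, 1) := by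
    funext p
    rw [(F.hd p.1 p.2).fderiv]
    simp
  rw [this]
  exact (F.hs.continuous_fderiv (by simp)).clm_apply continuous_const

/-- monomials -/
noncomputable def mon (c : ℝ) (i j : ℕ) : F2 where
  f x y := c * x ^ i * y ^ j
  fx x y := c * (i * x ^ (i - 1)) * y ^ j
  fy x y := c * x ^ i * (j * y ^ (j - 1))
  hd x y := by
    have h1 : HasFDerivAt (fun p : ℝ × ℝ => p.1 ^ i)
        ((i * x ^ (i - 1)) • ContinuousLinearMap.fst ℝ ℝ ℝ) (x, y) := by
      have h : HasDerivAt (fun t : ℝ => t ^ i) (i * x ^ (i - 1)) ((x, y) : ℝ × ℝ).1 :=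
        hasDerivAt_pow i x
      exact h.comp_hasFDerivAt (x, y) hasFDerivAt_fst
    have h2 : HasFDerivAt (fun p : ℝ × ℝ => p.2 ^ j)
        ((j * y ^ (j - 1)) • ContinuousLinearMap.snd ℝ ℝ ℝ) (x, y) := by
      have h : HasDerivAt (fun t : ℝ => t ^ j) (j * y ^ (j - 1)) ((x, y) : ℝ × ℝ).2 :=
        hasDerivAt_pow j y
      exact h.comp_hasFDerivAt (x, y) hasFDerivAt_snd
    have h3 := (h1.const_mul c).mul h2
    refine h3.congr_fderiv ?_
    ext <;> simp <;> ring
  hs := (contDiff_const.mul (contDiff_fst.pow i)).mul (contDiff_snd.pow j)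

/-- sums -/
noncomputable def add (F G : F2) : F2 where
  f x y := F.f x y + G.f x y
  fx x y := F.fx x y + G.fx x y
  fy x y := F.fy x y + G.fy x y
  hd x y := by
    refine ((F.hd x y).add (G.hd x y)).congr_fderiv ?_
    ext <;> simp
  hs := F.hs.add G.hs

/-- products -/
noncomputable def mul (F G : F2) : F2 where
  f x y := F.f x y * G.f x y
  fx x y := F.fx x y * G.f x y + F.f x y * G.fx x y
  fy x y := F.fy x y * G.f x y + F.f x y * G.fy x y
  hd x y := by
    refine ((F.hd x y).mul (G.hd x y)).congr_fderiv ?_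
    ext <;> simp <;> ring
  hs := F.hs.mul G.hs

/-- cut-off of a function -/
noncomputable def cut (k : ℕ) (F : F2) : F2 where
  f x y := HH k (F.f x y)
  fx x y := HD k (F.f x y) * F.fx x y
  fy x y := HD k (F.f x y) * F.fy x y
  hd x y := by
    have h := (hasDerivAt_HH k (F.f x y)).comp_hasFDerivAt (x, y) (F.hd x y)
    refine h.congr_fderiv ?_
    ext <;> simp
  hs := (contDiff_HH k).comp F.hs

/-- the function on Euclidean space -/
noncomputable def on (F : F2) (s : ℝ) (z : En (n + 2)) : ℝ := F.f (s * XX z) (s * YY z)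

lemma on_hasFDerivAt (F : F2) (s : ℝ) (z : En (n + 2)) :
    HasFDerivAt (F.on s) ((F.fx (s * XX z) (s * YY z) * s) • dX z
      + (F.fy (s * XX z) (s * YY z) * s) • dY z) z := by
  have h1 : HasFDerivAt (fun z : En (n + 2) => (s * XX z, s * YY z))
      ((s • dX z).prod (s • dY z)) z :=
    ((hasFDerivAt_XX z).const_mul s).prodMk ((hasFDerivAt_YY z).const_mul s)
  have h2 := (F.hd (s * XX z) (s * YY z)).comp z h1
  refine h2.congr_fderiv ?_
  ext v
  simp
  ring

lemma on_contDiff (F : F2) (s : ℝ) : ContDiff ℝ ∞ (F.on s : En (n + 2) → ℝ) :=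
  F.hs.comp ((contDiff_const.mul contDiff_XX).prodMk (contDiff_const.mul contDiff_YY))

end F2

lemma inner_ee (z : En (n + 2)) (i : Fin (n + 2)) : inner ℝ z (ee i) = z i := by
  rw [ee, EuclideanSpace.inner_single_right]; simp

/-- squared norm of a gradient of the special form -/
lemma norm_sq_special (z : En (n + 2)) (α β c1 c2 : ℝ) (L : En (n + 2) →L[ℝ] ℝ)
    (hL : ∀ v, L v = α * dX z v + β * dY z v + (c1 * v 0 + c2 * v 1)) :
    ‖L‖ ^ 2 = (2 * α * z 0 + c1) ^ 2 + (2 * α * z 1 + c2) ^ 2 + 4 * β ^ 2 * YY z := by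
  rw [norm_sq_functional, Fin.sum_univ_succ, Fin.sum_univ_succ, YY_eq, Finset.mul_sum]
  have h0 : L (ee 0) = 2 * α * z 0 + c1 := by
    rw [hL, dX_apply, dY_apply, inner_ee]; simp [ee_apply]; ring
  have h1 : L (ee (Fin.succ 0)) = 2 * α * z 1 + c2 := by
    rw [hL, dX_apply, dY_apply, inner_ee]; simp [ee_apply]; ring
  have h2 : ∀ j : Fin n, L (ee j.succ.succ) = 2 * β * z j.succ.succ := by
    intro j
    rw [hL, dX_apply, dY_apply, inner_ee]
    have e0 : (ee (Fin.succ (Fin.succ j)) : En (n + 2)) 0 = 0 := by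
      rw [ee_apply, if_neg]; exact (Fin.succ_ne_zero _).symm
    have e1 : (ee (Fin.succ (Fin.succ j)) : En (n + 2)) 1 = 0 := by
      rw [ee_apply, if_neg]
      intro h
      have : (Fin.succ 0 : Fin (n + 2)) = Fin.succ (Fin.succ j) := h
      exact (Fin.succ_ne_zero _) (Fin.succ_injective _ this).symm
    rw [e0, e1]; ring
  rw [h0, h1, ← add_assoc]
  congr 1
  refine Finset.sum_congr rfl fun j _ => ?_
  rw [h2]; ring

/-- rotation by a right angle in the plane of the first two coordinates -/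
noncomputable def rot : En (n + 2) ≃ₗᵢ[ℝ] En (n + 2) :=
  (LinearIsometryEquiv.piLpCongrLeft 2 ℝ ℝ (Equiv.swap (0 : Fin (n + 2)) 1)).trans
    (LinearIsometryEquiv.piLpCongrRight 2
      (fun i : Fin (n + 2) => if i = 0 then LinearIsometryEquiv.neg ℝ else LinearIsometryEquiv.refl ℝ ℝ))

lemma rot_zero (z : En (n + 2)) : (rot z) 0 = - z 1 := by
  simp [rot, LinearIsometryEquiv.piLpCongrLeft_apply, Equiv.piCongrLeft'_apply]

lemma rot_one (z : En (n + 2)) : (rot z) 1 = z 0 := by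
  simp [rot, LinearIsometryEquiv.piLpCongrLeft_apply, Equiv.piCongrLeft'_apply]

lemma XX_rot (z : En (n + 2)) : XX (rot z) = XX z := by
  rw [XX, XX, rot_zero, rot_one]; ring

lemma YY_rot (z : En (n + 2)) : YY (rot z) = YY z := by
  rw [YY, YY, XX_rot, LinearIsometryEquiv.norm_map]

lemma integral_rot (f : En (n + 2) → ℝ) : ∫ z, f (rot z) = ∫ z, f z :=
  (rot (n := n)).measurePreserving.integral_comp' (f := (rot (n := n)).toMeasurableEquiv) f

end Pool.Agent.Lib.MP_7d358c_an
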