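import Pool.Agent.Lib.MP_7d358c_an.Energy

/-!
# Divergence identities on the set `{W > 0}`
-/

open MeasureTheory Filter Topology
open scoped ContDiff

namespace Pool.Agent.Lib.MP_7d358c_an

variable {n : ℕ}

lemma cut_support (k : ℕ) (W : F2) (s : ℝ) (z : En (n + 2)) (hz : (W.cut k).on s z ≠ 0) :
    1 / ((k : ℝ) + 1) ≤ W.on s z := by
  by_contra hcon
  push Not at hcon
  apply hz
  have hk : (0:ℝ) < k + 1 := by positivity
  have : ((k:ℝ) + 1) * W.on s z ≤ 1 := by
    rw [lt_div_iff₀ hk] at hcon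
    nlinarith
  exact HH_zero this

lemma mul_cut_tsupport (k : ℕ) (W : F2) (s : ℝ) (f : En (n + 2) → ℝ) :
    tsupport (fun z => f z * (W.cut k).on s z) ⊆ {z | 1 / ((k : ℝ) + 1) ≤ W.on s z} := by
  have hc : IsClosed {z : En (n + 2) | 1 / ((k : ℝ) + 1) ≤ W.on s z} :=
    isClosed_le continuous_const (W.on_contDiff s).continuous
  refine closure_minimal ?_ hc
  intro z hz
  exact cut_support k W s z (right_ne_zero_of_mul hz)

lemma superlevel_subset (k : ℕ) (W : F2) (s : ℝ) :
    {z : En (n + 2) | 1 / ((k : ℝ) + 1) ≤ W.on s z} ⊆ {z | 0 < W.on s z} := by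
  intro z hz
  have : (0:ℝ) < 1 / ((k : ℝ) + 1) := by positivity
  exact this.trans_le hz

lemma mul_cut_compact (k : ℕ) (W : F2) (s : ℝ) (hK : IsCompact {z : En (n + 2) | 0 ≤ W.on s z})
    (f : En (n + 2) → ℝ) : HasCompactSupport (fun z => f z * (W.cut k).on s z) := by
  refine hK.of_isClosed_subset (isClosed_tsupport _) ((mul_cut_tsupport k W s f).trans ?_)
  intro z hz
  have h := superlevel_subset k W s hz
  exact le_of_lt (show 0 < W.on s z from h)

/-- the identity coming from the field `(x, 0)` -/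
lemma ident_X (k : ℕ) (P W : F2) (s : ℝ) (hK : IsCompact {z : En (n + 2) | 0 ≤ W.on s z}) :
    ∫ z : En (n + 2), (2 * (P.mul (W.cut k)).f (s * XX z) (s * YY z)
      + 2 * (s * XX z) * (P.mul (W.cut k)).fx (s * XX z) (s * YY z)) = 0 := by
  set Q := P.mul (W.cut k) with hQ
  have hon : ∀ z : En (n + 2), Q.on s z = P.on s z * (W.cut k).on s z := fun z => rfl
  have key : ∀ i : Fin (n + 2), ∫ z, fderiv ℝ (fun z : En (n + 2) => z i * Q.on s z) z (ee i) = 0 := by
    intro i
    refine integral_fderiv_zero _ ?_ ?_ _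
    · exact ((EuclideanSpace.proj i : En (n + 2) →L[ℝ] ℝ).contDiff.mul (Q.on_contDiff s)).of_le
        (by exact_mod_cast le_top)
    · have : (fun z : En (n + 2) => z i * Q.on s z)
          = fun z => (z i * P.on s z) * (W.cut k).on s z := by
        funext z; rw [hon]; ring
      rw [this]
      exact mul_cut_compact k W s hK _
  have hfd : ∀ i : Fin (n + 2), ∀ z v, fderiv ℝ (fun z : En (n + 2) => z i * Q.on s z) z v
      = v i * Q.on s z + z i * ((Q.fx (s * XX z) (s * YY z) * s) * dX z v
        + (Q.fy (s * XX z) (s * YY z) * s) * dY z v) := by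
    intro i z v
    have := ((hasFDerivAt_coord i z).mul (Q.on_hasFDerivAt s z)).fderiv
    have e : fderiv ℝ (fun z : En (n + 2) => z i * Q.on s z) z = _ := this
    rw [e]
    simp
    ring
  have hcont : ∀ i : Fin (n + 2), Integrable fun z =>
      fderiv ℝ (fun z : En (n + 2) => z i * Q.on s z) z (ee i) := by
    intro i
    have hC : ContDiff ℝ ∞ (fun z : En (n + 2) => z i * Q.on s z) :=
      (EuclideanSpace.proj i : En (n + 2) →L[ℝ] ℝ).contDiff.mul (Q.on_contDiff s)
    have hS : HasCompactSupport (fun z : En (n + 2) => z i * Q.on s z) := by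
      have : (fun z : En (n + 2) => z i * Q.on s z)
          = fun z => (z i * P.on s z) * (W.cut k).on s z := by
        funext z; rw [hon]; ring
      rw [this]
      exact mul_cut_compact k W s hK _
    have h1 : Continuous fun z => fderiv ℝ (fun z : En (n + 2) => z i * Q.on s z) z (ee i) :=
      (hC.continuous_fderiv (by simp)).clm_apply continuous_const
    have h2 : HasCompactSupport fun z => fderiv ℝ (fun z : En (n + 2) => z i * Q.on s z) z (ee i) :=
      (hS.fderiv (𝕜 := ℝ)).comp_left (g := fun L : En (n + 2) →L[ℝ] ℝ => L (ee i)) (by simp)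
    exact h1.integrable_of_hasCompactSupport h2
  have h01 := integral_add (hcont 0) (hcont 1)
  rw [key 0, key 1, add_zero] at h01
  rw [← h01]
  refine integral_congr_ae (Eventually.of_forall fun z => ?_)
  simp only [hfd, dX_apply, dY_apply, inner_ee]
  simp only [ee_apply, F2.on]
  simp [XX]
  ring

/-- the identity coming from the field `(x, y)` -/
lemma ident_Z (k : ℕ) (P W : F2) (s : ℝ) (hK : IsCompact {z : En (n + 2) | 0 ≤ W.on s z}) :
    ∫ z : En (n + 2), (((n : ℝ) + 2) * (P.mul (W.cut k)).f (s * XX z) (s * YY z)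
      + 2 * (s * XX z) * (P.mul (W.cut k)).fx (s * XX z) (s * YY z)
      + 2 * (s * YY z) * (P.mul (W.cut k)).fy (s * XX z) (s * YY z)) = 0 := by
  set Q := P.mul (W.cut k) with hQ
  have hon : ∀ z : En (n + 2), Q.on s z = P.on s z * (W.cut k).on s z := fun z => rfl
  have hC : ∀ i : Fin (n + 2), ContDiff ℝ ∞ (fun z : En (n + 2) => z i * Q.on s z) := fun i =>
    (EuclideanSpace.proj i : En (n + 2) →L[ℝ] ℝ).contDiff.mul (Q.on_contDiff s)
  have hS : ∀ i : Fin (n + 2), HasCompactSupport (fun z : En (n + 2) => z i * Q.on s z) := by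
    intro i
    have : (fun z : En (n + 2) => z i * Q.on s z)
        = fun z => (z i * P.on s z) * (W.cut k).on s z := by
      funext z; rw [hon]; ring
    rw [this]
    exact mul_cut_compact k W s hK _
  have key : ∀ i : Fin (n + 2), ∫ z, fderiv ℝ (fun z : En (n + 2) => z i * Q.on s z) z (ee i) = 0 :=
    fun i => integral_fderiv_zero _ ((hC i).of_le (by exact_mod_cast le_top)) (hS i) _
  have hfd : ∀ i : Fin (n + 2), ∀ z v, fderiv ℝ (fun z : En (n + 2) => z i * Q.on s z) z v
      = v i * Q.on s z + z i * ((Q.fx (s * XX z) (s * YY z) * s) * dX z v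
        + (Q.fy (s * XX z) (s * YY z) * s) * dY z v) := by
    intro i z v
    have := ((hasFDerivAt_coord i z).mul (Q.on_hasFDerivAt s z)).fderiv
    have e : fderiv ℝ (fun z : En (n + 2) => z i * Q.on s z) z = _ := this
    rw [e]
    simp
    ring
  have hcont : ∀ i : Fin (n + 2), Integrable fun z =>
      fderiv ℝ (fun z : En (n + 2) => z i * Q.on s z) z (ee i) := by
    intro i
    have h1 : Continuous fun z => fderiv ℝ (fun z : En (n + 2) => z i * Q.on s z) z (ee i) :=
      ((hC i).continuous_fderiv (by simp)).clm_apply continuous_const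
    have h2 : HasCompactSupport fun z => fderiv ℝ (fun z : En (n + 2) => z i * Q.on s z) z (ee i) :=
      ((hS i).fderiv (𝕜 := ℝ)).comp_left (g := fun L : En (n + 2) →L[ℝ] ℝ => L (ee i)) (by simp)
    exact h1.integrable_of_hasCompactSupport h2
  have hsum : ∫ z, ∑ i : Fin (n + 2), fderiv ℝ (fun z : En (n + 2) => z i * Q.on s z) z (ee i) = 0 := by
    rw [integral_finsetSum _ fun i _ => hcont i]
    exact Finset.sum_eq_zero fun i _ => key i
  rw [← hsum]
  refine integral_congr_ae (Eventually.of_forall fun z => ?_)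
  simp only [hfd]
  rw [Finset.sum_add_distrib]
  have e1 : ∑ i : Fin (n + 2), (ee i : En (n + 2)) i * Q.on s z = ((n:ℝ) + 2) * Q.on s z := by
    simp [ee_apply]
  have e2 : ∑ i : Fin (n + 2), z i * ((Q.fx (s * XX z) (s * YY z) * s) * dX z (ee i)
        + (Q.fy (s * XX z) (s * YY z) * s) * dY z (ee i))
      = (Q.fx (s * XX z) (s * YY z) * s) * dX z z + (Q.fy (s * XX z) (s * YY z) * s) * dY z z := by
    have hz : z = ∑ i : Fin (n + 2), z i • (ee i : En (n + 2)) := by
      ext j
      simp [ee_apply]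
    have h1 : dX z z = ∑ i : Fin (n + 2), z i * dX z (ee i) := by
      conv_lhs => rw [hz]
      rw [map_sum]
      simp only [map_smul, smul_eq_mul]
      rw [← hz]
    have h2 : dY z z = ∑ i : Fin (n + 2), z i * dY z (ee i) := by
      conv_lhs => rw [hz]
      rw [map_sum]
      simp only [map_smul, smul_eq_mul]
      rw [← hz]
    rw [h1, h2, Finset.mul_sum, Finset.mul_sum, ← Finset.sum_add_distrib]
    refine Finset.sum_congr rfl fun i _ => by ring
  rw [e1, e2, dX_apply, dY_apply, real_inner_self_eq_norm_sq]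
  have h3 : ‖z‖ ^ 2 = XX z + YY z := by rw [YY]; ring
  rw [h3]
  simp only [F2.on, XX]
  ring

/-- pointwise values of the cut-off product in terms of `HH` and `HD` -/
lemma mul_cut_f (k : ℕ) (P W : F2) (x y : ℝ) :
    (P.mul (W.cut k)).f x y = P.f x y * HH k (W.f x y) := rfl

lemma mul_cut_fx (k : ℕ) (P W : F2) (x y : ℝ) :
    (P.mul (W.cut k)).fx x y = P.fx x y * HH k (W.f x y) + P.f x y * (HD k (W.f x y) * W.fx x y) := rfl

lemma mul_cut_fy (k : ℕ) (P W : F2) (x y : ℝ) :
    (P.mul (W.cut k)).fy x y = P.fy x y * HH k (W.f x y) + P.f x y * (HD k (W.f x y) * W.fy x y) := rfl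

lemma cont_on (F : F2) (s : ℝ) : Continuous fun z : En (n + 2) => F.f (s * XX z) (s * YY z) :=
  (F.on_contDiff s).continuous

lemma cont_on' (F : F2) (s : ℝ) :
    Continuous fun p : En (n + 2) × ℝ × ℝ => F.f (s * XX p.1) (s * YY p.1) :=
  (F.on_contDiff s).continuous.comp continuous_fst

lemma cont_XX' : Continuous fun p : En (n + 2) × ℝ × ℝ => XX p.1 :=
  contDiff_XX.continuous.comp continuous_fst

lemma cont_YY' : Continuous fun p : En (n + 2) × ℝ × ℝ => YY p.1 :=
  contDiff_YY.continuous.comp continuous_fst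

lemma contx_on' (F : F2) (s : ℝ) :
    Continuous fun p : En (n + 2) × ℝ × ℝ => F.fx (s * XX p.1) (s * YY p.1) :=
  F.contx.comp ((continuous_const.mul cont_XX').prodMk (continuous_const.mul cont_YY'))

lemma conty_on' (F : F2) (s : ℝ) :
    Continuous fun p : En (n + 2) × ℝ × ℝ => F.fy (s * XX p.1) (s * YY p.1) :=
  F.conty.comp ((continuous_const.mul cont_XX').prodMk (continuous_const.mul cont_YY'))

lemma contx_on (F : F2) (s : ℝ) : Continuous fun z : En (n + 2) => F.fx (s * XX z) (s * YY z) :=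
  F.contx.comp ((continuous_const.mul contDiff_XX.continuous).prodMk
    (continuous_const.mul contDiff_YY.continuous))

lemma conty_on (F : F2) (s : ℝ) : Continuous fun z : En (n + 2) => F.fy (s * XX z) (s * YY z) :=
  F.conty.comp ((continuous_const.mul contDiff_XX.continuous).prodMk
    (continuous_const.mul contDiff_YY.continuous))

lemma lim_X (P W : F2) (s : ℝ) (hK : IsCompact {z : En (n + 2) | 0 ≤ W.on s z}) :
    ∫ z in {z : En (n + 2) | 0 < W.on s z},
      (2 * (P.f (s * XX z) (s * YY z) * W.f (s * XX z) (s * YY z))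
      + 2 * (s * XX z) * (P.fx (s * XX z) (s * YY z) * W.f (s * XX z) (s * YY z)
        + P.f (s * XX z) (s * YY z) * W.fx (s * XX z) (s * YY z))) = 0 := by
  have hP := cont_on' (n := n) P s
  have hPx := contx_on' (n := n) P s
  have hWx := contx_on' (n := n) W s
  have hX := cont_XX' (n := n)
  have h := tendsto_integral_cutoff (W.on s) (W.on_contDiff s).continuous hK
    (fun z a b => 2 * (P.f (s * XX z) (s * YY z) * a)
      + 2 * (s * XX z) * (P.fx (s * XX z) (s * YY z) * a
        + P.f (s * XX z) (s * YY z) * (b * W.fx (s * XX z) (s * YY z)))) (by fun_prop) (by simp)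
  have h2 : ∀ k : ℕ, ∫ z : En (n + 2), (2 * (P.f (s * XX z) (s * YY z) * HH k (W.on s z))
      + 2 * (s * XX z) * (P.fx (s * XX z) (s * YY z) * HH k (W.on s z)
        + P.f (s * XX z) (s * YY z) * (HD k (W.on s z) * W.fx (s * XX z) (s * YY z)))) = 0 :=
    fun k => ident_X k P W s hK
  simp only [h2] at h
  have h3 := tendsto_nhds_unique h tendsto_const_nhds
  refine (integral_congr_ae (Eventually.of_forall fun z => ?_)).trans h3
  simp only [F2.on]
  ring

lemma lim_Z (P W : F2) (s : ℝ) (hK : IsCompact {z : En (n + 2) | 0 ≤ W.on s z}) :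
    ∫ z in {z : En (n + 2) | 0 < W.on s z},
      (((n : ℝ) + 2) * (P.f (s * XX z) (s * YY z) * W.f (s * XX z) (s * YY z))
      + 2 * (s * XX z) * (P.fx (s * XX z) (s * YY z) * W.f (s * XX z) (s * YY z)
        + P.f (s * XX z) (s * YY z) * W.fx (s * XX z) (s * YY z))
      + 2 * (s * YY z) * (P.fy (s * XX z) (s * YY z) * W.f (s * XX z) (s * YY z)
        + P.f (s * XX z) (s * YY z) * W.fy (s * XX z) (s * YY z))) = 0 := by
  have hP := cont_on' (n := n) P s
  have hPx := contx_on' (n := n) P s
  have hPy := conty_on' (n := n) P s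
  have hWx := contx_on' (n := n) W s
  have hWy := conty_on' (n := n) W s
  have hX := cont_XX' (n := n)
  have hY := cont_YY' (n := n)
  have h := tendsto_integral_cutoff (W.on s) (W.on_contDiff s).continuous hK
    (fun z a b => ((n : ℝ) + 2) * (P.f (s * XX z) (s * YY z) * a)
      + 2 * (s * XX z) * (P.fx (s * XX z) (s * YY z) * a
        + P.f (s * XX z) (s * YY z) * (b * W.fx (s * XX z) (s * YY z)))
      + 2 * (s * YY z) * (P.fy (s * XX z) (s * YY z) * a
        + P.f (s * XX z) (s * YY z) * (b * W.fy (s * XX z) (s * YY z)))) (by fun_prop) (by simp)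
  have h2 : ∀ k : ℕ, ∫ z : En (n + 2), (((n : ℝ) + 2) * (P.f (s * XX z) (s * YY z) * HH k (W.on s z))
      + 2 * (s * XX z) * (P.fx (s * XX z) (s * YY z) * HH k (W.on s z)
        + P.f (s * XX z) (s * YY z) * (HD k (W.on s z) * W.fx (s * XX z) (s * YY z)))
      + 2 * (s * YY z) * (P.fy (s * XX z) (s * YY z) * HH k (W.on s z)
        + P.f (s * XX z) (s * YY z) * (HD k (W.on s z) * W.fy (s * XX z) (s * YY z)))) = 0 :=
    fun k => ident_Z k P W s hK
  simp only [h2] at h
  have h3 := tendsto_nhds_unique h tendsto_const_nhds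
  refine (integral_congr_ae (Eventually.of_forall fun z => ?_)).trans h3
  simp only [F2.on]
  ring

/-- **Certificates**: a function which is a negative constant plus divergences has negative
integral over `{W > 0}`. -/
lemma certificate (W P1 P3 : F2) (s : ℝ)
    (hK : IsCompact {z : En (n + 2) | 0 ≤ W.on s z}) (h0 : 0 < W.f 0 0)
    (D : ℝ → ℝ → ℝ) (κ : ℝ) (hκ : 0 < κ)
    (hD : ∀ x y, D x y = -κ + (2 * (P1.f x y * W.f x y)
      + 2 * x * (P1.fx x y * W.f x y + P1.f x y * W.fx x y))
      + (((n : ℝ) + 2) * (P3.f x y * W.f x y)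
      + 2 * x * (P3.fx x y * W.f x y + P3.f x y * W.fx x y)
      + 2 * y * (P3.fy x y * W.f x y + P3.f x y * W.fy x y))) :
    ∫ z in {z : En (n + 2) | 0 < W.on s z}, D (s * XX z) (s * YY z) < 0 := by
  have hsub : {z : En (n + 2) | 0 < W.on s z} ⊆ {z | 0 ≤ W.on s z} := fun z hz =>
    show 0 ≤ W.on s z from le_of_lt (show 0 < W.on s z from hz)
  have hop : IsOpen {z : En (n + 2) | 0 < W.on s z} :=
    isOpen_lt continuous_const (W.on_contDiff s).continuous
  have hint : ∀ f : En (n + 2) → ℝ, Continuous f →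
      IntegrableOn f {z : En (n + 2) | 0 < W.on s z} := fun f hf =>
    (hf.continuousOn.integrableOn_compact hK).mono_set hsub
  have hfin : volume {z : En (n + 2) | 0 < W.on s z} < ⊤ :=
    (measure_mono hsub).trans_lt hK.measure_lt_top
  have hpos : 0 < volume {z : En (n + 2) | 0 < W.on s z} := by
    refine hop.measure_pos volume ⟨0, ?_⟩
    simpa [F2.on, XX, YY] using h0
  have hP1 := cont_on (n := n) P1 s
  have hP1x := contx_on (n := n) P1 s
  have hP3 := cont_on (n := n) P3 s
  have hP3x := contx_on (n := n) P3 s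
  have hP3y := conty_on (n := n) P3 s
  have hW := cont_on (n := n) W s
  have hWx := contx_on (n := n) W s
  have hWy := conty_on (n := n) W s
  have hX : Continuous (XX : En (n + 2) → ℝ) := contDiff_XX.continuous
  have hY : Continuous (YY : En (n + 2) → ℝ) := contDiff_YY.continuous
  set f1 : En (n + 2) → ℝ := fun z => (2 * (P1.f (s * XX z) (s * YY z) * W.f (s * XX z) (s * YY z))
      + 2 * (s * XX z) * (P1.fx (s * XX z) (s * YY z) * W.f (s * XX z) (s * YY z)
        + P1.f (s * XX z) (s * YY z) * W.fx (s * XX z) (s * YY z))) with hf1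
  set f2 : En (n + 2) → ℝ := fun z => (((n : ℝ) + 2) * (P3.f (s * XX z) (s * YY z) * W.f (s * XX z) (s * YY z))
      + 2 * (s * XX z) * (P3.fx (s * XX z) (s * YY z) * W.f (s * XX z) (s * YY z)
        + P3.f (s * XX z) (s * YY z) * W.fx (s * XX z) (s * YY z))
      + 2 * (s * YY z) * (P3.fy (s * XX z) (s * YY z) * W.f (s * XX z) (s * YY z)
        + P3.f (s * XX z) (s * YY z) * W.fy (s * XX z) (s * YY z))) with hf2
  have hDz : ∀ z : En (n + 2), D (s * XX z) (s * YY z) = -κ + f1 z + f2 z := fun z => hD _ _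
  simp only [hDz]
  have hi1 : IntegrableOn f1 {z : En (n + 2) | 0 < W.on s z} := hint _ (by rw [hf1]; fun_prop)
  have hi2 : IntegrableOn f2 {z : En (n + 2) | 0 < W.on s z} := hint _ (by rw [hf2]; fun_prop)
  have hi0 : IntegrableOn (fun _ : En (n + 2) => -κ) {z : En (n + 2) | 0 < W.on s z} :=
    integrableOn_const hfin.ne
  have e1 : ∫ z in {z : En (n + 2) | 0 < W.on s z}, (-κ + f1 z + f2 z)
      = (∫ z in {z : En (n + 2) | 0 < W.on s z}, (-κ + f1 z))
        + ∫ z in {z : En (n + 2) | 0 < W.on s z}, f2 z :=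
    integral_add (f := fun z => -κ + f1 z) (hi0.add hi1) hi2
  have e2 : ∫ z in {z : En (n + 2) | 0 < W.on s z}, (-κ + f1 z)
      = (∫ _z in {z : En (n + 2) | 0 < W.on s z}, -κ)
        + ∫ z in {z : En (n + 2) | 0 < W.on s z}, f1 z := integral_add hi0 hi1
  have e3 : ∫ z in {z : En (n + 2) | 0 < W.on s z}, f1 z = 0 := lim_X P1 W s hK
  have e4 : ∫ z in {z : En (n + 2) | 0 < W.on s z}, f2 z = 0 := lim_Z P3 W s hK
  rw [e1, e2, e3, e4, setIntegral_const]
  have : 0 < (volume : Measure (En (n + 2))).real {z : En (n + 2) | 0 < W.on s z} :=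
    ENNReal.toReal_pos hpos.ne' hfin.ne
  simp only [smul_eq_mul, add_zero]
  nlinarith

end Pool.Agent.Lib.MP_7d358c_an
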