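import Pool.Agent.Lib.MP_7d358c_an.Upper

/-!
# Comparison of an ellipsoid with three disjoint balls
-/

open MeasureTheory Filter Topology Metric
open scoped ContDiff

namespace Pool.Agent.Lib.MP_7d358c_an

variable {n : ℕ}

/-- `Ω` is the union of three pairwise disjoint open balls, each of volume `1/3`. -/
def IsThreeBalls {N : ℕ} (Ω : Set (EuclideanSpace ℝ (Fin N))) : Prop :=
  ∃ (x : Fin 3 → EuclideanSpace ℝ (Fin N)) (r : Fin 3 → ℝ),
    (∀ i, volume (ball (x i) (r i)) = 1 / 3) ∧
    (∀ i j, i ≠ j → Disjoint (ball (x i) (r i)) (ball (x j) (r j))) ∧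
    Ω = ⋃ i, ball (x i) (r i)

lemma admissible_ge {N k : ℕ} (hk : 0 < k) {Ω : Set (En N)} {μ : ℝ}
    (hμ : ∀ u, IsTest Ω u → μ * ∫ x, u x ^ 2 ≤ ∫ x, ‖fderiv ℝ u x‖ ^ 2) {L : ℝ}
    (hL : ∃ V : Submodule ℝ (En N → ℝ), Module.finrank ℝ V = k ∧
      ∀ u ∈ V, IsTest Ω u ∧ ∫ x, ‖fderiv ℝ u x‖ ^ 2 ≤ L * ∫ x, u x ^ 2) : μ ≤ L := by
  obtain ⟨V, hV, h⟩ := hL
  have hne : V ≠ ⊥ := by
    rintro rfl
    simp at hV
    omega
  obtain ⟨u, huV, hu0⟩ := Submodule.exists_mem_ne_zero_of_ne_bot hne
  obtain ⟨ht, hu⟩ := h u huV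
  have h1 := hμ u ht
  obtain ⟨x, hx⟩ : ∃ x, u x ≠ 0 := by
    by_contra hcon
    push Not at hcon
    exact hu0 (funext hcon)
  have hs2 : HasCompactSupport fun z => u z ^ 2 := by
    have : HasCompactSupport fun z => u z * u z := ht.2.1.mul_right
    simpa only [sq] using this
  have hpos : 0 < ∫ x, u x ^ 2 :=
    (ht.1.continuous.pow 2).integral_pos_of_hasCompactSupport_nonneg_nonzero hs2
      (fun z => sq_nonneg (u z)) (x := x) (pow_ne_zero 2 hx)
  exact le_of_mul_le_mul_right (h1.trans hu) hpos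

lemma lam_bddBelow {N k : ℕ} (hk : 0 < k) (Ω : Set (En N)) :
    BddBelow {L : ℝ | ∃ V : Submodule ℝ (EuclideanSpace ℝ (Fin N) → ℝ), Module.finrank ℝ V = k ∧
    ∀ u ∈ V, IsTest Ω u ∧ ∫ x, ‖fderiv ℝ u x‖ ^ 2 ≤ L * ∫ x, u x ^ 2} := by
  refine ⟨0, fun L hL => admissible_ge hk (μ := 0) (fun u _ => ?_) hL⟩
  rw [zero_mul]
  exact integral_nonneg fun x => by positivity

/-- upper bound for the third eigenvalue -/
theorem lam_le (W h : F2) (s L : ℝ) (hs : 0 < s) (hK : IsCompact {z : En (n + 2) | 0 ≤ W.on s z})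
    (h1 : ∫ z in {z : En (n + 2) | 0 < W.on s z}, Th1 W s L z (W.on s z) 1 < 0)
    (h2 : ∫ z in {z : En (n + 2) | 0 < W.on s z}, Th2 W h s L z (W.on s z) 1 < 0)
    (hW0 : 0 < W.f 0 0) (x0 : ℝ) (hx0 : 0 < x0) (hWx : 0 < W.f x0 0) (hhx : h.f x0 0 ≠ 0) :
    lam 3 {z : En (n + 2) | 0 < W.on s z} ≤ L * s := by
  have hcW : Continuous (W.on s : En (n + 2) → ℝ) := (W.on_contDiff s).continuous
  have hl1 := tendsto_integral_cutoff (W.on s) hcW hK (Th1 W s L) (cont_Th1 W s L) (by simp [Th1])
  have hl2 := tendsto_integral_cutoff (W.on s) hcW hK (Th2 W h s L) (cont_Th2 W h s L) (by simp [Th2])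
  have ev1 := hl1.eventually (gt_mem_nhds h1)
  have ev2 := hl2.eventually (gt_mem_nhds h2)
  have evk : ∀ t : ℝ, 0 < t → ∀ᶠ k : ℕ in atTop, 2 ≤ ((k:ℝ) + 1) * t := by
    intro t ht
    obtain ⟨m, hm⟩ := exists_nat_ge (2 / t)
    filter_upwards [eventually_ge_atTop m] with k hk
    have : 2 / t ≤ k := hm.trans (by exact_mod_cast hk)
    rw [div_le_iff₀ ht] at this
    nlinarith
  obtain ⟨k, hk1, hk2, hk3, hk4⟩ := (ev1.and (ev2.and ((evk _ hW0).and (evk _ hWx)))).exists
  refine csInf_le (lam_bddBelow (by norm_num) _) ⟨LinearMap.range (tf k W h s), ?_, ?_⟩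
  · -- dimension
    have hinj : Function.Injective (tf (n := n) k W h s) := by
      rw [← LinearMap.ker_eq_bot, LinearMap.ker_eq_bot']
      intro c hc
      have hz : ∀ z : En (n + 2), c 0 * (W.cut k).on s z
          + (c 1 * z 0 + c 2 * z 1) * (h.mul (W.cut k)).on s z = 0 := fun z => by
        have := congrFun hc z
        rw [tf_apply] at this
        simpa using this
      have hon0 : (W.cut k).on s (0 : En (n + 2)) = W.f 0 0 := by
        have e : (W.cut k).on s (0 : En (n + 2)) = HH k (W.f 0 0) := by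
          simp [F2.on, F2.cut, XX, YY]
        rw [e, HH_eq hk3]
      have c0 : c 0 = 0 := by
        have := hz 0
        rw [hon0] at this
        simp at this
        rcases this with h | h
        · exact h
        · exact absurd h hW0.ne'
      set t := Real.sqrt (x0 / s) with ht
      have htpos : 0 < t := Real.sqrt_pos.mpr (by positivity)
      have htsq : s * t ^ 2 = x0 := by
        rw [ht, Real.sq_sqrt (by positivity)]; field_simp
      have hval : ∀ z : En (n + 2), XX z = t ^ 2 → YY z = 0 →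
          (h.mul (W.cut k)).on s z = h.f x0 0 * W.f x0 0 := by
        intro z hX hY
        have e : (h.mul (W.cut k)).on s z = h.f (s * XX z) (s * YY z) * HH k (W.f (s * XX z) (s * YY z)) :=
          rfl
        rw [e, hX, hY, htsq, mul_zero, HH_eq hk4]
      have hne : h.f x0 0 * W.f x0 0 ≠ 0 := mul_ne_zero hhx hWx.ne'
      have c1 : c 1 = 0 := by
        have h3 := hz (EuclideanSpace.single 0 t)
        have hX : XX (EuclideanSpace.single 0 t : En (n + 2)) = t ^ 2 := by simp [XX]
        have hY : YY (EuclideanSpace.single 0 t : En (n + 2)) = 0 := by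
          rw [YY, hX]; simp
        rw [hval _ hX hY, c0] at h3
        simp only [PiLp.single_apply] at h3
        simp at h3
        rcases h3 with (h3 | h3) | h3 | h3
        · exact h3
        · exact absurd h3 htpos.ne'
        · exact absurd h3 hhx
        · exact absurd h3 hWx.ne'
      have c2 : c 2 = 0 := by
        have h3 := hz (EuclideanSpace.single 1 t)
        have hX : XX (EuclideanSpace.single 1 t : En (n + 2)) = t ^ 2 := by simp [XX]
        have hY : YY (EuclideanSpace.single 1 t : En (n + 2)) = 0 := by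
          rw [YY, hX]; simp
        rw [hval _ hX hY, c0, c1] at h3
        simp only [PiLp.single_apply] at h3
        simp at h3
        rcases h3 with (h3 | h3) | h3 | h3
        · exact h3
        · exact absurd h3 htpos.ne'
        · exact absurd h3 hhx
        · exact absurd h3 hWx.ne'
      funext i
      fin_cases i <;> simp [c0, c1, c2]
    rw [LinearMap.finrank_range_of_inj hinj]
    simp
  · rintro u ⟨c, rfl⟩
    refine ⟨tf_test k W h s hK c, ?_⟩
    have e := integral_energy k W h s L hK c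
    have p1 : c 0 ^ 2 * s * (∫ z : En (n + 2), Th1 W s L z (HH k (W.on s z)) (HD k (W.on s z))) ≤ 0 :=
      mul_nonpos_of_nonneg_of_nonpos (by positivity) hk1.le
    have p2 : (c 1 ^ 2 + c 2 ^ 2) / 2
        * (∫ z : En (n + 2), Th2 W h s L z (HH k (W.on s z)) (HD k (W.on s z))) ≤ 0 :=
      mul_nonpos_of_nonneg_of_nonpos (by positivity) hk2.le
    linarith

end Pool.Agent.Lib.MP_7d358c_an
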