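import Pool.Agent.Lib.MP_7d358c_an.Identities

/-!
# Upper bound for the third Dirichlet eigenvalue of `{W > 0}`
-/

open MeasureTheory Filter Topology
open scoped ContDiff

namespace Pool.Agent.Lib.MP_7d358c_an

variable {n : ℕ}

/-- the three-dimensional space of test functions, as a linear map -/
noncomputable def tf (k : ℕ) (W h : F2) (s : ℝ) : (Fin 3 → ℝ) →ₗ[ℝ] (En (n + 2) → ℝ) where
  toFun c z := c 0 * (W.cut k).on s z + (c 1 * z 0 + c 2 * z 1) * (h.mul (W.cut k)).on s z
  map_add' c d := by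
    funext z
    simp
    ring
  map_smul' a c := by
    funext z
    simp
    ring

lemma tf_apply (k : ℕ) (W h : F2) (s : ℝ) (c : Fin 3 → ℝ) (z : En (n + 2)) :
    tf k W h s c z = c 0 * (W.cut k).on s z + (c 1 * z 0 + c 2 * z 1) * (h.mul (W.cut k)).on s z :=
  rfl

lemma tf_test (k : ℕ) (W h : F2) (s : ℝ) (hK : IsCompact {z : En (n + 2) | 0 ≤ W.on s z})
    (c : Fin 3 → ℝ) : IsTest {z : En (n + 2) | 0 < W.on s z} (tf k W h s c) := by
  have e : (tf k W h s c : En (n + 2) → ℝ)
      = fun z => (c 0 + (c 1 * z 0 + c 2 * z 1) * h.on s z) * (W.cut k).on s z := by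
    funext z
    have : (h.mul (W.cut k)).on s z = h.on s z * (W.cut k).on s z := rfl
    rw [tf_apply, this]
    ring
  refine ⟨?_, ?_, ?_⟩
  · have h0 : ContDiff ℝ ∞ fun z : En (n + 2) => z 0 :=
      (EuclideanSpace.proj 0 : En (n + 2) →L[ℝ] ℝ).contDiff
    have h1 : ContDiff ℝ ∞ fun z : En (n + 2) => z 1 :=
      (EuclideanSpace.proj 1 : En (n + 2) →L[ℝ] ℝ).contDiff
    have : (tf k W h s c : En (n + 2) → ℝ)
      = fun z => c 0 * (W.cut k).on s z + (c 1 * z 0 + c 2 * z 1) * (h.mul (W.cut k)).on s z := rfl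
    rw [this]
    exact (contDiff_const.mul ((W.cut k).on_contDiff s)).add
      (((contDiff_const.mul h0).add (contDiff_const.mul h1)).mul ((h.mul (W.cut k)).on_contDiff s))
  · rw [e]; exact mul_cut_compact k W s hK _
  · rw [e]; exact (mul_cut_tsupport k W s _).trans (superlevel_subset k W s)

lemma tf_energy (k : ℕ) (W h : F2) (s : ℝ) (c : Fin 3 → ℝ) (z : En (n + 2)) :
    ‖fderiv ℝ (tf k W h s c) z‖ ^ 2 =
      (2 * ((c 0 * (W.cut k).fx (s * XX z) (s * YY z)
        + (c 1 * z 0 + c 2 * z 1) * (h.mul (W.cut k)).fx (s * XX z) (s * YY z)) * s) * z 0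
          + c 1 * (h.mul (W.cut k)).on s z) ^ 2
      + (2 * ((c 0 * (W.cut k).fx (s * XX z) (s * YY z)
        + (c 1 * z 0 + c 2 * z 1) * (h.mul (W.cut k)).fx (s * XX z) (s * YY z)) * s) * z 1
          + c 2 * (h.mul (W.cut k)).on s z) ^ 2
      + 4 * ((c 0 * (W.cut k).fy (s * XX z) (s * YY z)
        + (c 1 * z 0 + c 2 * z 1) * (h.mul (W.cut k)).fy (s * XX z) (s * YY z)) * s) ^ 2 * YY z := by
  refine norm_sq_special z _ _ _ _ _ fun v => ?_
  have h0 := hasFDerivAt_coord (0 : Fin (n + 2)) z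
  have h1 := hasFDerivAt_coord (1 : Fin (n + 2)) z
  have hA := (W.cut k).on_hasFDerivAt s z
  have hB := (h.mul (W.cut k)).on_hasFDerivAt s z
  have hd := (hA.const_mul (c 0)).add (((h0.const_mul (c 1)).add (h1.const_mul (c 2))).mul hB)
  have e : fderiv ℝ (tf k W h s c) z = _ := hd.fderiv
  rw [e]
  simp
  ring

/-- energy density of the first test function -/
noncomputable def Th1 (W : F2) (s L : ℝ) (z : En (n + 2)) (H D : ℝ) : ℝ :=
  4 * ((s * XX z) * (D * W.fx (s * XX z) (s * YY z)) ^ 2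
    + (s * YY z) * (D * W.fy (s * XX z) (s * YY z)) ^ 2) - L * H ^ 2

/-- energy density of the pair of excited test functions -/
noncomputable def Th2 (W h : F2) (s L : ℝ) (z : En (n + 2)) (H D : ℝ) : ℝ :=
  2 * (h.f (s * XX z) (s * YY z) * H) ^ 2
  + 4 * (s * XX z) * (h.f (s * XX z) (s * YY z) * H)
    * (h.fx (s * XX z) (s * YY z) * H + h.f (s * XX z) (s * YY z) * (D * W.fx (s * XX z) (s * YY z)))
  + 4 * (s * XX z) ^ 2
    * (h.fx (s * XX z) (s * YY z) * H + h.f (s * XX z) (s * YY z) * (D * W.fx (s * XX z) (s * YY z))) ^ 2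
  + 4 * (s * XX z) * (s * YY z)
    * (h.fy (s * XX z) (s * YY z) * H + h.f (s * XX z) (s * YY z) * (D * W.fy (s * XX z) (s * YY z))) ^ 2
  - L * (s * XX z) * (h.f (s * XX z) (s * YY z) * H) ^ 2

lemma cont_Th1 (W : F2) (s L : ℝ) :
    Continuous fun p : En (n + 2) × ℝ × ℝ => Th1 W s L p.1 p.2.1 p.2.2 := by
  have hWx := contx_on' (n := n) W s
  have hWy := conty_on' (n := n) W s
  have hX := cont_XX' (n := n)
  have hY := cont_YY' (n := n)
  unfold Th1
  fun_prop

lemma cont_Th2 (W h : F2) (s L : ℝ) :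
    Continuous fun p : En (n + 2) × ℝ × ℝ => Th2 W h s L p.1 p.2.1 p.2.2 := by
  have hh := cont_on' (n := n) h s
  have hhx := contx_on' (n := n) h s
  have hhy := conty_on' (n := n) h s
  have hWx := contx_on' (n := n) W s
  have hWy := conty_on' (n := n) W s
  have hX := cont_XX' (n := n)
  have hY := cont_YY' (n := n)
  unfold Th2
  fun_prop

lemma integrable_cutoff {N : ℕ} (w : En N → ℝ) (hw : Continuous w)
    (hK : IsCompact {z | 0 ≤ w z}) (Θ : En N → ℝ → ℝ → ℝ)
    (hΘ : Continuous fun p : En N × ℝ × ℝ => Θ p.1 p.2.1 p.2.2) (h0 : ∀ z, Θ z 0 0 = 0) (k : ℕ) :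
    Integrable fun z => Θ z (HH k (w z)) (HD k (w z)) := by
  have hc : Continuous fun z => Θ z (HH k (w z)) (HD k (w z)) :=
    hΘ.comp (continuous_id.prodMk (((contDiff_HH k).continuous.comp hw).prodMk
      ((continuous_HD k).comp hw)))
  refine hc.integrable_of_hasCompactSupport (HasCompactSupport.intro hK fun z hz => ?_)
  have hz' : w z < 0 := by
    by_contra hcon; push Not at hcon; exact hz hcon
  have : ((k:ℝ) + 1) * w z ≤ 1 := by
    have : (0:ℝ) < k + 1 := by positivity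
    nlinarith
  rw [HH_zero this, HD_zero this, h0]

lemma isTest_integrable {N : ℕ} {Ω : Set (En N)} {u : En N → ℝ} (hu : IsTest Ω u) :
    Integrable (fun z => ‖fderiv ℝ u z‖ ^ 2) ∧ Integrable (fun z => u z ^ 2) := by
  obtain ⟨hu1, hu2, hu3⟩ := hu
  have hcd : Continuous (fderiv ℝ u) := hu1.continuous_fderiv (by simp)
  constructor
  · have hs : HasCompactSupport fun z => ‖fderiv ℝ u z‖ := (hu2.fderiv (𝕜 := ℝ)).norm
    have hs2 : HasCompactSupport fun z => ‖fderiv ℝ u z‖ * ‖fderiv ℝ u z‖ := hs.mul_right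
    have hs3 : Continuous fun z => ‖fderiv ℝ u z‖ * ‖fderiv ℝ u z‖ := hcd.norm.mul hcd.norm
    refine (hs3.integrable_of_hasCompactSupport hs2).congr (Eventually.of_forall fun z => ?_)
    simp only [sq]
  · have hs2 : HasCompactSupport fun z => u z * u z := hu2.mul_right
    have hs3 : Continuous fun z => u z * u z := hu1.continuous.mul hu1.continuous
    refine (hs3.integrable_of_hasCompactSupport hs2).congr (Eventually.of_forall fun z => ?_)
    simp only [sq]

lemma integrable_rot {f : En (n + 2) → ℝ} (hf : Integrable f) : Integrable fun z => f (rot z) :=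
  ((rot (n := n)).measurePreserving.integrable_comp_emb
    (rot (n := n)).toMeasurableEquiv.measurableEmbedding).mpr hf

lemma integral_average (T : En (n + 2) → ℝ) (hT : Integrable T) (A : En (n + 2) → ℝ)
    (hA : ∀ z, T z + T (rot z) + T (rot (rot z)) + T (rot (rot (rot z))) = 4 * A z) :
    ∫ z, T z = ∫ z, A z := by
  have h1 := integrable_rot hT
  have h2 := integrable_rot h1
  have h3 := integrable_rot h2
  have e1 := integral_rot T
  have e2 := integral_rot fun z => T (rot z)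
  have e3 := integral_rot fun z => T (rot (rot z))
  have e : ∫ z, (T z + T (rot z) + T (rot (rot z)) + T (rot (rot (rot z)))) = 4 * ∫ z, A z := by
    rw [← integral_const_mul]
    exact integral_congr_ae (Eventually.of_forall fun z => hA z)
  have e4 : ∫ z, (T z + T (rot z) + T (rot (rot z)) + T (rot (rot (rot z))))
      = (∫ z, (T z + T (rot z) + T (rot (rot z)))) + ∫ z, T (rot (rot (rot z))) :=
    integral_add (f := fun z => T z + T (rot z) + T (rot (rot z))) ((hT.add h1).add h2) h3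
  have e5 : ∫ z, (T z + T (rot z) + T (rot (rot z)))
      = (∫ z, (T z + T (rot z))) + ∫ z, T (rot (rot z)) :=
    integral_add (f := fun z => T z + T (rot z)) (hT.add h1) h2
  have e6 : ∫ z, (T z + T (rot z)) = (∫ z, T z) + ∫ z, T (rot z) := integral_add hT h1
  linarith

lemma integral_energy (k : ℕ) (W h : F2) (s L : ℝ) (hK : IsCompact {z : En (n + 2) | 0 ≤ W.on s z})
    (c : Fin 3 → ℝ) :
    (∫ z : En (n + 2), ‖fderiv ℝ (tf k W h s c) z‖ ^ 2) - L * s * ∫ z : En (n + 2), (tf k W h s c z) ^ 2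
      = c 0 ^ 2 * s * (∫ z : En (n + 2), Th1 W s L z (HH k (W.on s z)) (HD k (W.on s z)))
        + (c 1 ^ 2 + c 2 ^ 2) / 2
          * ∫ z : En (n + 2), Th2 W h s L z (HH k (W.on s z)) (HD k (W.on s z)) := by
  have hcW : Continuous (W.on s : En (n + 2) → ℝ) := (W.on_contDiff s).continuous
  have hi1 := integrable_cutoff (W.on s) hcW hK (Th1 W s L) (cont_Th1 W s L) (by simp [Th1]) k
  have hi2 := integrable_cutoff (W.on s) hcW hK (Th2 W h s L) (cont_Th2 W h s L) (by simp [Th2]) k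
  obtain ⟨hI1, hI2⟩ := isTest_integrable (tf_test (n := n) k W h s hK c)
  have e1 : (∫ z : En (n + 2), ‖fderiv ℝ (tf k W h s c) z‖ ^ 2)
      - L * s * ∫ z : En (n + 2), (tf k W h s c z) ^ 2
      = ∫ z : En (n + 2), (‖fderiv ℝ (tf k W h s c) z‖ ^ 2 - L * s * (tf k W h s c z) ^ 2) := by
    rw [← integral_const_mul]
    exact (integral_sub hI1 (hI2.const_mul _)).symm
  have e2 : c 0 ^ 2 * s * (∫ z : En (n + 2), Th1 W s L z (HH k (W.on s z)) (HD k (W.on s z)))
        + (c 1 ^ 2 + c 2 ^ 2) / 2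
          * ∫ z : En (n + 2), Th2 W h s L z (HH k (W.on s z)) (HD k (W.on s z))
      = ∫ z : En (n + 2), (c 0 ^ 2 * s * Th1 W s L z (HH k (W.on s z)) (HD k (W.on s z))
        + (c 1 ^ 2 + c 2 ^ 2) / 2 * Th2 W h s L z (HH k (W.on s z)) (HD k (W.on s z))) := by
    rw [← integral_const_mul, ← integral_const_mul]
    exact (integral_add (hi1.const_mul _) (hi2.const_mul _)).symm
  rw [e1, e2]
  refine integral_average
    (fun z : En (n + 2) => ‖fderiv ℝ (tf k W h s c) z‖ ^ 2 - L * s * (tf k W h s c z) ^ 2)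
    (hI1.sub (hI2.const_mul _))
    (fun z : En (n + 2) => c 0 ^ 2 * s * Th1 W s L z (HH k (W.on s z)) (HD k (W.on s z))
        + (c 1 ^ 2 + c 2 ^ 2) / 2 * Th2 W h s L z (HH k (W.on s z)) (HD k (W.on s z))) fun z => ?_
  simp only [tf_energy, tf_apply, XX_rot, YY_rot, F2.on, rot_zero, rot_one, Th1, Th2]
  simp only [F2.mul, F2.cut]
  generalize h.f (s * XX z) (s * YY z) = h0
  generalize h.fx (s * XX z) (s * YY z) = hx
  generalize h.fy (s * XX z) (s * YY z) = hy
  generalize HH k (W.f (s * XX z) (s * YY z)) = H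
  generalize HD k (W.f (s * XX z) (s * YY z)) = D
  generalize W.fx (s * XX z) (s * YY z) = wx
  generalize W.fy (s * XX z) (s * YY z) = wy
  generalize YY z = Y
  have hX : XX z = z 0 ^ 2 + z 1 ^ 2 := rfl
  rw [hX]
  generalize z 0 = a
  generalize z 1 = b
  ring

end Pool.Agent.Lib.MP_7d358c_an
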